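import Pool.Agent.Q161.EA.Stm
import Pool.Agent.Q91.EL.Small

/-!
# Project EA (helper161), job EXC: preparations
-/

set_option autoImplicit false

namespace Pool.Agent.Q63.EA

open NumberField IsDedekindDomain Finset
open Pool.Agent.Q161.EA Pool.Agent.Q51.EL
open Pool.Agent.Q161.OD (P1 P2)

/-- dyadic summation -/
theorem dyad : ∀ (N : ℕ) (q : ℝ) (P : Finset ℕ), 1 ≤ q →
    (∀ l ∈ P, q < (l : ℝ) ∧ (l : ℝ) ≤ 2 ^ N * q) →
    (∀ R : ℝ, q ≤ R → (∃ l ∈ P, R < (l : ℝ)) →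
      ((P.filter (fun l : ℕ => R < (l : ℝ) ∧ (l : ℝ) ≤ 2 * R)).card : ℝ) ≤ R ^ (9 / 10 : ℝ)) →
    ∑ l ∈ P, (1 : ℝ) / l ≤ 16 * q ^ (-(1 / 10 : ℝ)) := by
  intro N
  induction N with
  | zero =>
    intro q P hq h1 _
    have hP : P = ∅ := by
      rw [Finset.eq_empty_iff_forall_notMem]
      intro l hl
      have := h1 l hl
      rw [pow_zero, one_mul] at this
      linarith [this.1, this.2]
    rw [hP, sum_empty]
    positivity
  | succ N ih =>
    intro q P hq h1 h2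
    have hq0 : 0 < q := by linarith
    have hsplit : ∑ l ∈ P, (1 : ℝ) / l =
        ∑ l ∈ P.filter (fun l : ℕ => (l : ℝ) ≤ 2 * q), (1 : ℝ) / l +
        ∑ l ∈ P.filter (fun l : ℕ => ¬ (l : ℝ) ≤ 2 * q), (1 : ℝ) / l :=
      (Finset.sum_filter_add_sum_filter_not _ _ _).symm
    have hA : ∑ l ∈ P.filter (fun l : ℕ => (l : ℝ) ≤ 2 * q), (1 : ℝ) / l ≤ q ^ (-(1 / 10 : ℝ)) := by
      rcases (P.filter (fun l : ℕ => (l : ℝ) ≤ 2 * q)).eq_empty_or_nonempty with he | ⟨l0, hl0⟩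
      · rw [he, sum_empty]
        positivity
      · have h3 := h2 q le_rfl ⟨l0, (mem_filter.1 hl0).1, (h1 l0 (mem_filter.1 hl0).1).1⟩
        have h4 : P.filter (fun l : ℕ => q < (l : ℝ) ∧ (l : ℝ) ≤ 2 * q) =
            P.filter (fun l : ℕ => (l : ℝ) ≤ 2 * q) := by
          apply Finset.filter_congr
          intro l hl
          exact ⟨fun h => h.2, fun h => ⟨(h1 l hl).1, h⟩⟩
        rw [h4] at h3
        calc ∑ l ∈ P.filter (fun l : ℕ => (l : ℝ) ≤ 2 * q), (1 : ℝ) / l ≤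
              ∑ l ∈ P.filter (fun l : ℕ => (l : ℝ) ≤ 2 * q), (1 : ℝ) / q := by
              apply sum_le_sum
              intro l hl
              exact div_le_div_of_nonneg_left (by norm_num) hq0 (h1 l (mem_filter.1 hl).1).1.le
          _ = ((P.filter (fun l : ℕ => (l : ℝ) ≤ 2 * q)).card : ℝ) / q := by
              rw [sum_const, nsmul_eq_mul, mul_one_div]
          _ ≤ q ^ (9 / 10 : ℝ) / q := by gcongr
          _ = q ^ (-(1 / 10 : ℝ)) := by
              rw [show (9 / 10 : ℝ) = -(1 / 10 : ℝ) + 1 by norm_num, Real.rpow_add_one hq0.ne',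
                mul_div_assoc, div_self hq0.ne', mul_one]
    have hB : ∑ l ∈ P.filter (fun l : ℕ => ¬ (l : ℝ) ≤ 2 * q), (1 : ℝ) / l ≤
        16 * (2 * q) ^ (-(1 / 10 : ℝ)) := by
      apply ih (2 * q) _ (by linarith)
      · intro l hl
        have h3 := mem_filter.1 hl
        refine ⟨not_le.1 h3.2, ?_⟩
        have := (h1 l h3.1).2
        rw [pow_succ] at this
        linarith
      · rintro R hR ⟨l, hl, hlR⟩
        have h3 := h2 R (by linarith) ⟨l, (mem_filter.1 hl).1, hlR⟩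
        refine le_trans ?_ h3
        have h4 : ((P.filter (fun l : ℕ => ¬ (l : ℝ) ≤ 2 * q)).filter
            (fun l : ℕ => R < (l : ℝ) ∧ (l : ℝ) ≤ 2 * R)).card ≤
            (P.filter (fun l : ℕ => R < (l : ℝ) ∧ (l : ℝ) ≤ 2 * R)).card :=
          Finset.card_le_card (Finset.filter_subset_filter _ (Finset.filter_subset _ _))
        exact_mod_cast h4
    have hC : (2 * q) ^ (-(1 / 10 : ℝ)) ≤ 15 / 16 * q ^ (-(1 / 10 : ℝ)) := by
      rw [Real.mul_rpow (by norm_num) hq0.le]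
      apply mul_le_mul_of_nonneg_right _ (by positivity)
      rw [Real.rpow_neg (by norm_num), inv_le_comm₀ (by positivity) (by norm_num)]
      have h5 : (16 / 15 : ℝ) = ((16 / 15 : ℝ) ^ (10 : ℕ)) ^ (1 / 10 : ℝ) := by
        rw [← Real.rpow_natCast, ← Real.rpow_mul (by norm_num)]
        norm_num
      have h6 : ((15 / 16 : ℝ))⁻¹ = 16 / 15 := by norm_num
      rw [h6, h5]
      exact Real.rpow_le_rpow (by positivity) (by norm_num) (by norm_num)
    rw [hsplit]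
    linarith

section L

variable {L : Type} [Field L] [NumberField L]

theorem absNorm_le {α : 𝓞 L} {X : ℝ} (h : ∀ σ : L →+* ℂ, ‖σ (α : L)‖ ≤ X) :
    ((Ideal.absNorm (Ideal.span {α}) : ℕ) : ℝ) ≤ X ^ Module.finrank ℚ L := by
  have h0 : ((Ideal.absNorm (Ideal.span {α}) : ℕ) : ℝ) = ∏ σ : L →ₐ[ℚ] ℂ, ‖σ (α : L)‖ := by
    rw [Ideal.absNorm_span_singleton, Nat.cast_natAbs, Int.cast_abs]
    have h1 : algebraMap ℚ ℂ (Algebra.norm ℚ (α : L)) = ∏ σ : L →ₐ[ℚ] ℂ, σ (α : L) :=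
      Algebra.norm_eq_prod_embeddings ℚ ℂ (α : L)
    rw [← Algebra.coe_norm_int] at h1
    rw [← norm_prod, ← h1]
    simp
  rw [h0]
  calc ∏ σ : L →ₐ[ℚ] ℂ, ‖σ (α : L)‖ ≤ ∏ _σ : L →ₐ[ℚ] ℂ, X :=
        Finset.prod_le_prod (fun _ _ => norm_nonneg _) (fun σ _ => h σ.toRingHom)
    _ = X ^ Module.finrank ℚ L := by
        rw [Finset.prod_const, Finset.card_univ, AlgHom.card]

theorem dvd_absNorm {l : ℕ} (hl : l.Prime) {α : 𝓞 L} (h : ¬ Un l α) :
    l ∣ Ideal.absNorm (Ideal.span {α}) := by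
  unfold Un at h
  push Not at h
  obtain ⟨v, hv, hα⟩ := h
  have h1 : v.asIdeal ∣ Ideal.span {α} := by
    rw [Ideal.dvd_span_singleton]
    exact hα
  have h2 : Ideal.absNorm v.asIdeal ∣ Ideal.absNorm (Ideal.span {α}) :=
    Ideal.absNorm_dvd_absNorm_of_le (Ideal.le_of_dvd h1)
  refine dvd_trans ?_ h2
  have h3 : Ideal.absNorm v.asIdeal ∣ Ideal.absNorm (Ideal.span {(l : 𝓞 L)}) :=
    Ideal.absNorm_dvd_absNorm_of_le (by
      rw [Ideal.span_singleton_le_iff_mem]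
      exact hv)
  have h4 : Ideal.absNorm (Ideal.span {(l : 𝓞 L)}) = l ^ Module.finrank ℤ (𝓞 L) := by
    rw [Ideal.absNorm_span_singleton]
    have : (l : 𝓞 L) = algebraMap ℤ (𝓞 L) (l : ℤ) := by simp
    rw [this, Algebra.norm_algebraMap]
    simp [Int.natAbs_pow]
  rw [h4] at h3
  obtain ⟨k, -, hk⟩ := (Nat.dvd_prime_pow hl).1 h3
  rw [hk]
  refine dvd_pow_self l ?_
  intro hk0
  rw [hk0, pow_zero, Ideal.absNorm_eq_one_iff] at hk
  exact v.isPrime.ne_top hk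

/-- few large primes divide the norm -/
theorem few (α : 𝓞 L) (hα : α ≠ 0) (z : ℝ) (hz : 1 < z)
    (h : ∀ σ : L →+* ℂ, ‖σ (α : L)‖ ≤ z ^ 2) (P : Finset ℕ)
    (hP : ∀ l ∈ P, l.Prime ∧ z < (l : ℝ) ∧ ¬ Un l α) : P.card ≤ 2 * Module.finrank ℚ L := by
  have h1 : (∏ l ∈ P, l) ∣ Ideal.absNorm (Ideal.span {α}) := by
    apply Finset.prod_primes_dvd
    · intro l hl
      exact (hP l hl).1.prime
    · intro l hl
      exact dvd_absNorm (hP l hl).1 (hP l hl).2.2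
  have h2 : Ideal.absNorm (Ideal.span {α}) ≠ 0 := by
    rw [Ne, Ideal.absNorm_eq_zero_iff, Ideal.span_singleton_eq_bot]
    exact hα
  have h3 : (∏ l ∈ P, l) ≤ Ideal.absNorm (Ideal.span {α}) := Nat.le_of_dvd (Nat.pos_of_ne_zero h2) h1
  have h4 := absNorm_le h
  have h5 : z ^ P.card ≤ ∏ l ∈ P, (l : ℝ) := by
    calc z ^ P.card = ∏ _l ∈ P, z := by rw [prod_const]
      _ ≤ ∏ l ∈ P, (l : ℝ) := Finset.prod_le_prod (fun _ _ => by linarith)
          (fun l hl => (hP l hl).2.1.le)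
  have h6 : z ^ P.card ≤ z ^ (2 * Module.finrank ℚ L) := by
    calc z ^ P.card ≤ ∏ l ∈ P, (l : ℝ) := h5
      _ = ((∏ l ∈ P, l : ℕ) : ℝ) := by push_cast; rfl
      _ ≤ ((Ideal.absNorm (Ideal.span {α}) : ℕ) : ℝ) := by exact_mod_cast h3
      _ ≤ (z ^ 2) ^ Module.finrank ℚ L := h4
      _ = z ^ (2 * Module.finrank ℚ L) := by rw [pow_mul]
  exact (pow_le_pow_iff_right₀ hz).1 h6

end L

end Pool.Agent.Q63.EA
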