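import Pool.Agent.Q161.EA.Stm

/-!
# Project EA (helper161), job BOX2: the sum over the dyadic boxes
-/

set_option autoImplicit false

namespace Pool.Agent.Q63.EA

open NumberField IsDedekindDomain Finset
open Pool.Agent.Q161.EA Pool.Agent.Q51.EL
open Pool.Agent.Q161.OD (P1 P2)

/-- partial sums of `(1 + j) ^ (-b)` -/
theorem pw (b : ℝ) (h0 : 0 < b) (h1 : b < 1) (N : ℕ) :
    ∑ j ∈ range N, (1 + (j : ℝ)) ^ (-b) ≤ (N : ℝ) ^ (1 - b) / (1 - b) := by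
  have hb : 0 < 1 - b := by linarith
  induction N with
  | zero => simp [Real.zero_rpow hb.ne']
  | succ N ih =>
    rw [sum_range_succ]
    have hN : (0 : ℝ) < (N : ℝ) + 1 := by positivity
    have h2 : (1 + -(1 / ((N : ℝ) + 1))) ^ (1 - b) ≤ 1 + (1 - b) * -(1 / ((N : ℝ) + 1)) := by
      apply rpow_one_add_le_one_add_mul_self _ hb.le (by linarith)
      rw [neg_le_neg_iff, div_le_one hN]
      have : (0 : ℝ) ≤ N := Nat.cast_nonneg N
      linarith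
    have h3 : (0 : ℝ) ≤ 1 + -(1 / ((N : ℝ) + 1)) := by
      have : 1 / ((N : ℝ) + 1) ≤ 1 := by
        rw [div_le_one hN]
        have : (0 : ℝ) ≤ N := Nat.cast_nonneg N
        linarith
      linarith
    have h4 : (N : ℝ) ^ (1 - b) ≤ ((N : ℝ) + 1) ^ (1 - b) * (1 + (1 - b) * -(1 / ((N : ℝ) + 1))) := by
      have h5 : (N : ℝ) = ((N : ℝ) + 1) * (1 + -(1 / ((N : ℝ) + 1))) := by
        field_simp
        ring
      calc (N : ℝ) ^ (1 - b) = (((N : ℝ) + 1) * (1 + -(1 / ((N : ℝ) + 1)))) ^ (1 - b) := by rw [← h5]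
        _ = ((N : ℝ) + 1) ^ (1 - b) * (1 + -(1 / ((N : ℝ) + 1))) ^ (1 - b) :=
          Real.mul_rpow hN.le h3
        _ ≤ _ := mul_le_mul_of_nonneg_left h2 (Real.rpow_nonneg hN.le _)
    have h6 : ((N : ℝ) + 1) ^ (1 - b) = ((N : ℝ) + 1) ^ (-b) * ((N : ℝ) + 1) := by
      rw [show (1 : ℝ) - b = -b + 1 by ring, Real.rpow_add_one hN.ne']
    have h7 : ((N : ℝ) + 1) ^ (1 - b) * (1 + (1 - b) * -(1 / ((N : ℝ) + 1))) =
        ((N : ℝ) + 1) ^ (1 - b) - (1 - b) * ((N : ℝ) + 1) ^ (-b) := by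
      rw [h6]
      field_simp
      ring
    rw [h7] at h4
    have h8 : (N : ℝ) ^ (1 - b) / (1 - b) ≤
        ((N : ℝ) + 1) ^ (1 - b) / (1 - b) - ((N : ℝ) + 1) ^ (-b) := by
      rw [div_le_iff₀ hb, sub_mul, div_mul_cancel₀ _ hb.ne']
      linarith
    push_cast
    rw [add_comm (1 : ℝ) (N : ℝ)]
    linarith

/-- the discrete beta integral is bounded -/
theorem beta (b : ℝ) (h0 : 0 < b) (h1 : b < 1) (J : ℕ) :
    ∑ j ∈ range (J + 1), (1 + ((J - j : ℕ) : ℝ)) ^ (-(1 - b)) * (1 + (j : ℝ)) ^ (-b) ≤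
      2 / b + 2 / (1 - b) := by
  have hb : 0 < 1 - b := by linarith
  have hJ : (0 : ℝ) < ((J : ℝ) + 1) / 2 := by positivity
  have hJ1 : (0 : ℝ) < (J : ℝ) + 1 := by positivity
  have hterm : ∀ j ∈ range (J + 1),
      (1 + ((J - j : ℕ) : ℝ)) ^ (-(1 - b)) * (1 + (j : ℝ)) ^ (-b) ≤
        (((J : ℝ) + 1) / 2) ^ (-(1 - b)) * (1 + (j : ℝ)) ^ (-b) +
        (((J : ℝ) + 1) / 2) ^ (-b) * (1 + ((J - j : ℕ) : ℝ)) ^ (-(1 - b)) := by
    intro j hj
    have hj1 : j ≤ J := by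
      have := mem_range.1 hj
      omega
    have p1 : 0 ≤ (((J : ℝ) + 1) / 2) ^ (-(1 - b)) * (1 + (j : ℝ)) ^ (-b) := by positivity
    have p2 : 0 ≤ (((J : ℝ) + 1) / 2) ^ (-b) * (1 + ((J - j : ℕ) : ℝ)) ^ (-(1 - b)) := by positivity
    have hc : ((J - j : ℕ) : ℝ) = (J : ℝ) - j := by
      rw [Nat.cast_sub hj1]
    rcases le_total (2 * j) J with h | h
    · have h2 : (2 : ℝ) * j ≤ J := by exact_mod_cast h
      have h3 : ((J : ℝ) + 1) / 2 ≤ 1 + ((J - j : ℕ) : ℝ) := by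
        rw [hc]
        linarith
      have h4 := Real.rpow_le_rpow_of_nonpos hJ h3 (show -(1 - b) ≤ 0 by linarith)
      have h5 := mul_le_mul_of_nonneg_right h4 (show (0 : ℝ) ≤ (1 + (j : ℝ)) ^ (-b) by positivity)
      linarith
    · have h2 : (J : ℝ) ≤ 2 * j := by exact_mod_cast h
      have h3 : ((J : ℝ) + 1) / 2 ≤ 1 + (j : ℝ) := by linarith
      have h4 := Real.rpow_le_rpow_of_nonpos hJ h3 (show -b ≤ 0 by linarith)
      have h5 := mul_le_mul_of_nonneg_left h4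
        (show (0 : ℝ) ≤ (1 + ((J - j : ℕ) : ℝ)) ^ (-(1 - b)) by positivity)
      linarith
  have hrefl : ∑ j ∈ range (J + 1), (1 + ((J - j : ℕ) : ℝ)) ^ (-(1 - b)) =
      ∑ j ∈ range (J + 1), (1 + (j : ℝ)) ^ (-(1 - b)) := by
    rw [← Finset.sum_range_reflect (fun j : ℕ => (1 + (j : ℝ)) ^ (-(1 - b))) (J + 1)]
    apply sum_congr rfl
    intro j _
    rfl
  have s1 := pw b h0 h1 (J + 1)
  have s2 := pw (1 - b) hb (by linarith) (J + 1)
  push_cast at s1 s2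
  rw [show (1 : ℝ) - (1 - b) = b by ring] at s2
  have e1 : (((J : ℝ) + 1) / 2) ^ (-(1 - b)) * (((J : ℝ) + 1) ^ (1 - b) / (1 - b)) ≤ 2 / (1 - b) := by
    rw [Real.rpow_neg hJ.le, Real.div_rpow hJ1.le (by norm_num)]
    have h2 : (2 : ℝ) ^ (1 - b) ≤ 2 ^ (1 : ℝ) :=
      Real.rpow_le_rpow_of_exponent_le (by norm_num) (by linarith)
    rw [Real.rpow_one] at h2
    have h3 : (0 : ℝ) < ((J : ℝ) + 1) ^ (1 - b) := Real.rpow_pos_of_pos hJ1 _
    have h4 : (0 : ℝ) < (2 : ℝ) ^ (1 - b) := Real.rpow_pos_of_pos (by norm_num) _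
    rw [inv_div, div_mul_div_comm, mul_comm ((2 : ℝ) ^ (1 - b)), mul_div_mul_left _ _ h3.ne']
    gcongr
  have e2 : (((J : ℝ) + 1) / 2) ^ (-b) * (((J : ℝ) + 1) ^ b / b) ≤ 2 / b := by
    rw [Real.rpow_neg hJ.le, Real.div_rpow hJ1.le (by norm_num)]
    have h2 : (2 : ℝ) ^ b ≤ 2 ^ (1 : ℝ) :=
      Real.rpow_le_rpow_of_exponent_le (by norm_num) (by linarith)
    rw [Real.rpow_one] at h2
    have h3 : (0 : ℝ) < ((J : ℝ) + 1) ^ b := Real.rpow_pos_of_pos hJ1 _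
    have h4 : (0 : ℝ) < (2 : ℝ) ^ b := Real.rpow_pos_of_pos (by norm_num) _
    rw [inv_div, div_mul_div_comm, mul_comm ((2 : ℝ) ^ b), mul_div_mul_left _ _ h3.ne']
    gcongr
  calc _ ≤ ∑ j ∈ range (J + 1), ((((J : ℝ) + 1) / 2) ^ (-(1 - b)) * (1 + (j : ℝ)) ^ (-b) +
        (((J : ℝ) + 1) / 2) ^ (-b) * (1 + ((J - j : ℕ) : ℝ)) ^ (-(1 - b))) := sum_le_sum hterm
    _ = (((J : ℝ) + 1) / 2) ^ (-(1 - b)) * ∑ j ∈ range (J + 1), (1 + (j : ℝ)) ^ (-b) +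
        (((J : ℝ) + 1) / 2) ^ (-b) * ∑ j ∈ range (J + 1), (1 + (j : ℝ)) ^ (-(1 - b)) := by
        rw [sum_add_distrib, ← mul_sum, ← mul_sum, hrefl]
    _ ≤ (((J : ℝ) + 1) / 2) ^ (-(1 - b)) * (((J : ℝ) + 1) ^ (1 - b) / (1 - b)) +
        (((J : ℝ) + 1) / 2) ^ (-b) * (((J : ℝ) + 1) ^ b / b) :=
        add_le_add (mul_le_mul_of_nonneg_left s1 (by positivity))
          (mul_le_mul_of_nonneg_left s2 (by positivity))
    _ ≤ 2 / b + 2 / (1 - b) := by linarith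

/-- the bound for one box -/
noncomputable def bnd (b : ℝ) (J j : ℕ) : ℝ :=
  (1 + ((J - j : ℕ) : ℝ)) ^ (-(1 - (1 / 2 : ℝ))) * (1 + (j : ℝ)) ^ (-(1 / 2 : ℝ)) +
    (1 + ((J - j : ℕ) : ℝ)) ^ (-(1 + b)) +
    (1 + ((J - j : ℕ) : ℝ)) ^ (-(1 - b)) * (1 + (j : ℝ)) ^ (-b) + ((J : ℝ) + 1)⁻¹

theorem bnd_sum (b : ℝ) (h0 : 0 < b) (h1 : b < 1) : ∃ C : ℝ, 0 < C ∧ ∀ J : ℕ,
    ∑ j ∈ range (J + 1), bnd b J j ≤ C := by
  have hs : Summable (fun i : ℕ => (i : ℝ) ^ (-(1 + b))) := Real.summable_nat_rpow.2 (by linarith)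
  have hs1 : Summable (fun i : ℕ => (1 + (i : ℝ)) ^ (-(1 + b))) := by
    have := (summable_nat_add_iff 1).2 hs
    refine this.congr fun i => ?_
    push_cast
    rw [add_comm]
  have hnn : ∀ i : ℕ, 0 ≤ (1 + (i : ℝ)) ^ (-(1 + b)) := fun i => by positivity
  set S : ℝ := ∑' i : ℕ, (1 + (i : ℝ)) ^ (-(1 + b)) with hS
  have hS0 : 0 ≤ S := tsum_nonneg hnn
  have hb : 0 < 1 - b := by linarith
  refine ⟨(2 / (1 / 2) + 2 / (1 - 1 / 2)) + S + (2 / b + 2 / (1 - b)) + 1, by positivity, fun J => ?_⟩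
  have b1 := beta (1 / 2) (by norm_num) (by norm_num) J
  have b2 := beta b h0 h1 J
  have b3 : ∑ j ∈ range (J + 1), (1 + ((J - j : ℕ) : ℝ)) ^ (-(1 + b)) ≤ S := by
    have hrefl : ∑ j ∈ range (J + 1), (1 + ((J - j : ℕ) : ℝ)) ^ (-(1 + b)) =
        ∑ j ∈ range (J + 1), (1 + (j : ℝ)) ^ (-(1 + b)) := by
      rw [← Finset.sum_range_reflect (fun j : ℕ => (1 + (j : ℝ)) ^ (-(1 + b))) (J + 1)]
      apply sum_congr rfl
      intro j _
      rfl
    rw [hrefl]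
    exact hs1.sum_le_tsum _ (fun i _ => hnn i)
  have b4 : ∑ j ∈ range (J + 1), ((J : ℝ) + 1)⁻¹ ≤ 1 := by
    rw [sum_const, card_range, nsmul_eq_mul]
    push_cast
    rw [mul_inv_cancel₀ (by positivity)]
  unfold bnd
  rw [sum_add_distrib, sum_add_distrib, sum_add_distrib]
  linarith

/-- one box -/
theorem box_real (n : ℕ) (hn : 3 ≤ n) (b C1 C2 C3 c0 : ℝ) (h0 : 0 < b) (h1 : b < 1) (hC1 : 0 < C1)
    (hC2 : 0 < C2) (hC3 : 0 < C3) (hc0 : 1 ≤ c0) : ∃ K0 : ℝ, 0 < K0 ∧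
    ∀ (X : ℝ) (J j : ℕ) (N Y M : ℝ), (2 : ℝ) ^ J ≤ X → j ≤ J →
      Y = c0 * (X / 2 ^ j) ^ ((1 : ℝ) / n) → M = 2 ^ (j + 1) → 0 ≤ N →
      (N * (1 + Real.log (min Y M)) ≤ C1 * Y ^ n * M) →
      (M ^ 4 ≤ Y → N * ((1 + Real.log Y) ^ (1 / 2 : ℝ) * (1 + Real.log M) ^ (1 / 2 : ℝ)) ≤
        C2 * Y ^ n * M) →
      (Y ^ (2 * n) ≤ M → N ≤ C3 * Y ^ n * M * ((1 + Real.log Y) ^ (-(1 + b)) +
        (1 + Real.log Y) ^ (-(1 - b)) * (1 + Real.log M) ^ (-b))) →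
      N ≤ K0 * X * bnd b J j := by
  have hl2 : 0 < Real.log 2 := Real.log_pos (by norm_num)
  have hl21 : Real.log 2 < 1 := by
    have := Real.log_two_lt_d9
    linarith
  have hn0 : (0 : ℝ) < n := by
    have : 0 < n := by omega
    exact_mod_cast this
  have hn1 : (1 : ℝ) ≤ n := by
    have : 1 ≤ n := by omega
    exact_mod_cast this
  obtain ⟨δ, hδ⟩ : ∃ δ : ℝ, δ = Real.log 2 / n := ⟨_, rfl⟩
  have hδ0 : 0 < δ := by
    rw [hδ]
    positivity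
  have hδl : δ ≤ Real.log 2 := by
    rw [hδ]
    exact div_le_self hl2.le hn1
  have hδ1 : δ < 1 := by linarith
  have hc00 : 0 < c0 := by linarith
  obtain ⟨V, hV⟩ : ∃ V : ℝ, V = 2 * c0 ^ n := ⟨_, rfl⟩
  have hV0 : 0 < V := by
    rw [hV]
    positivity
  refine ⟨V * (C1 * (2 * n + 5) + C2 + C3) * δ ^ (-2 : ℝ), by positivity, ?_⟩
  intro X J j N Y M hX hj hY hM hN hcor hA hC
  have h2j : (0 : ℝ) < 2 ^ j := by positivity
  have hX0 : 0 < X := lt_of_lt_of_le (by positivity) hX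
  have hXj : (1 : ℝ) ≤ X / 2 ^ j := by
    rw [one_le_div h2j]
    exact (pow_le_pow_right₀ (by norm_num) hj).trans hX
  have hXr : (1 : ℝ) ≤ (X / 2 ^ j) ^ ((1 : ℝ) / n) := Real.one_le_rpow hXj (by positivity)
  have hY1 : 1 ≤ Y := by
    rw [hY]
    nlinarith
  have hY0 : 0 < Y := by linarith
  have hM0 : 0 < M := by
    rw [hM]
    positivity
  have hM1 : 1 ≤ M := by
    rw [hM]
    exact one_le_pow₀ (by norm_num)
  have hYn : Y ^ n * M = V * X := by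
    rw [hY, hM, hV, mul_pow, ← Real.rpow_natCast ((X / 2 ^ j) ^ ((1 : ℝ) / n)) n,
      ← Real.rpow_mul (by positivity), one_div, inv_mul_cancel₀ hn0.ne', Real.rpow_one, pow_succ]
    field_simp
  have hlogY : Real.log Y = Real.log c0 + (Real.log X - j * Real.log 2) / n := by
    have h1 : 0 < X / 2 ^ j := by positivity
    rw [hY, Real.log_mul hc00.ne' (by positivity), Real.log_rpow h1,
      Real.log_div hX0.ne' h2j.ne', Real.log_pow]
    ring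
  have hlogX : (J : ℝ) * Real.log 2 ≤ Real.log X := by
    rw [← Real.log_pow]
    exact Real.log_le_log (by positivity) hX
  obtain ⟨i, hi⟩ : ∃ i : ℕ, i = J - j := ⟨_, rfl⟩
  have hic : (i : ℝ) = (J : ℝ) - j := by
    rw [hi, Nat.cast_sub hj]
  have hlY : (i : ℝ) * δ ≤ Real.log Y := by
    have hlc : 0 ≤ Real.log c0 := Real.log_nonneg hc0
    rw [hlogY, hδ, hic]
    have : ((J : ℝ) - j) * (Real.log 2 / n) ≤ (Real.log X - j * Real.log 2) / n := by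
      rw [mul_div_assoc']
      gcongr
      linarith
    linarith
  have hlM : Real.log M = (j + 1) * Real.log 2 := by
    rw [hM, Real.log_pow]
    push_cast
    ring
  have hlM1 : ((j : ℝ) + 1) * δ ≤ Real.log M := by
    rw [hlM]
    gcongr
  have hi1 : (0 : ℝ) < 1 + i := by positivity
  have hj1 : (0 : ℝ) < 1 + (j : ℝ) := by positivity
  have hu : δ * (1 + i) ≤ 1 + Real.log Y := by nlinarith
  have hw : δ * (1 + j) ≤ 1 + Real.log M := by nlinarith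
  have hδi : 0 < δ * (1 + i) := by positivity
  have hδj : 0 < δ * (1 + (j : ℝ)) := by positivity
  have hbn : bnd b J j = (1 + (i : ℝ)) ^ (-(1 - (1 / 2 : ℝ))) * (1 + (j : ℝ)) ^ (-(1 / 2 : ℝ)) +
    (1 + (i : ℝ)) ^ (-(1 + b)) + (1 + (i : ℝ)) ^ (-(1 - b)) * (1 + (j : ℝ)) ^ (-b) +
      ((J : ℝ) + 1)⁻¹ := by
    unfold bnd
    rw [hi]
  have q1 : 0 ≤ (1 + (i : ℝ)) ^ (-(1 - (1 / 2 : ℝ))) * (1 + (j : ℝ)) ^ (-(1 / 2 : ℝ)) := by
    positivity
  have q2 : 0 ≤ (1 + (i : ℝ)) ^ (-(1 + b)) := by positivity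
  have q3 : 0 ≤ (1 + (i : ℝ)) ^ (-(1 - b)) * (1 + (j : ℝ)) ^ (-b) := by positivity
  have q4 : 0 ≤ ((J : ℝ) + 1)⁻¹ := by positivity
  have hδ2 : 0 < δ ^ (-2 : ℝ) := Real.rpow_pos_of_pos hδ0 _
  have hδm : ∀ s : ℝ, s ≤ 2 → δ ^ (-s) ≤ δ ^ (-2 : ℝ) := fun s hs =>
    Real.rpow_le_rpow_of_exponent_ge hδ0 hδ1.le (by linarith)
  -- monotonicity
  have mu : ∀ s : ℝ, 0 ≤ s → (1 + Real.log Y) ^ (-s) ≤ δ ^ (-s) * (1 + (i : ℝ)) ^ (-s) := by
    intro s hs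
    rw [← Real.mul_rpow hδ0.le hi1.le]
    exact Real.rpow_le_rpow_of_nonpos hδi hu (by linarith)
  have mw : ∀ s : ℝ, 0 ≤ s → (1 + Real.log M) ^ (-s) ≤ δ ^ (-s) * (1 + (j : ℝ)) ^ (-s) := by
    intro s hs
    rw [← Real.mul_rpow hδ0.le hj1.le]
    exact Real.rpow_le_rpow_of_nonpos hδj hw (by linarith)
  have hu0 : 0 < 1 + Real.log Y := by linarith
  have hw0 : 0 < 1 + Real.log M := by linarith
  have hVX : 0 < V * X := by positivity
  have fin : ∀ z : ℝ, z ≤ (C1 * (2 * n + 5) + C2 + C3) * δ ^ (-2 : ℝ) * bnd b J j → N ≤ V * X * z →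
      N ≤ V * (C1 * (2 * n + 5) + C2 + C3) * δ ^ (-2 : ℝ) * X * bnd b J j := by
    intro z hz hNz
    calc N ≤ V * X * z := hNz
      _ ≤ V * X * ((C1 * (2 * n + 5) + C2 + C3) * δ ^ (-2 : ℝ) * bnd b J j) :=
        mul_le_mul_of_nonneg_left hz hVX.le
      _ = _ := by ring
  have hb0 : 0 ≤ bnd b J j := by
    rw [hbn]
    positivity
  by_cases cA : M ^ 4 ≤ Y
  · have h2 := hA cA
    rw [mul_assoc, hYn] at h2
    have h3 : N ≤ V * X * (C2 * ((1 + Real.log Y) ^ (-(1 / 2 : ℝ)) *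
        (1 + Real.log M) ^ (-(1 / 2 : ℝ)))) := by
      rw [Real.rpow_neg hu0.le, Real.rpow_neg hw0.le, ← mul_inv]
      have h4 : 0 < (1 + Real.log Y) ^ (1 / 2 : ℝ) * (1 + Real.log M) ^ (1 / 2 : ℝ) := by
        positivity
      rw [← mul_assoc, ← div_eq_mul_inv, le_div_iff₀ h4]
      linarith
    refine fin _ ?_ h3
    have h5 := mu (1 / 2) (by norm_num)
    have h6 := mw (1 / 2) (by norm_num)
    have h7 : (1 + Real.log Y) ^ (-(1 / 2 : ℝ)) * (1 + Real.log M) ^ (-(1 / 2 : ℝ)) ≤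
        (δ ^ (-(1 / 2 : ℝ)) * (1 + (i : ℝ)) ^ (-(1 / 2 : ℝ))) *
        (δ ^ (-(1 / 2 : ℝ)) * (1 + (j : ℝ)) ^ (-(1 / 2 : ℝ))) :=
      mul_le_mul h5 h6 (by positivity) (by positivity)
    have h8 : δ ^ (-(1 / 2 : ℝ)) * δ ^ (-(1 / 2 : ℝ)) = δ ^ (-(1 : ℝ)) := by
      rw [← Real.rpow_add hδ0]
      norm_num
    have h9 : (1 + Real.log Y) ^ (-(1 / 2 : ℝ)) * (1 + Real.log M) ^ (-(1 / 2 : ℝ)) ≤
        δ ^ (-2 : ℝ) * ((1 + (i : ℝ)) ^ (-(1 - (1 / 2 : ℝ))) * (1 + (j : ℝ)) ^ (-(1 / 2 : ℝ))) := by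
      have e : (-(1 - (1 / 2 : ℝ))) = (-(1 / 2 : ℝ)) := by norm_num
      rw [e]
      rw [e] at q1
      calc _ ≤ (δ ^ (-(1 / 2 : ℝ)) * δ ^ (-(1 / 2 : ℝ))) *
            ((1 + (i : ℝ)) ^ (-(1 / 2 : ℝ)) * (1 + (j : ℝ)) ^ (-(1 / 2 : ℝ))) := by
            refine h7.trans (le_of_eq ?_)
            ring
        _ ≤ _ := by
            rw [h8]
            exact mul_le_mul_of_nonneg_right (hδm 1 (by norm_num)) q1
    have h10 : (1 + (i : ℝ)) ^ (-(1 - (1 / 2 : ℝ))) * (1 + (j : ℝ)) ^ (-(1 / 2 : ℝ)) ≤ bnd b J j := by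
      rw [hbn]
      linarith
    calc C2 * ((1 + Real.log Y) ^ (-(1 / 2 : ℝ)) * (1 + Real.log M) ^ (-(1 / 2 : ℝ))) ≤
          C2 * (δ ^ (-2 : ℝ) * bnd b J j) := by
            apply mul_le_mul_of_nonneg_left _ hC2.le
            exact h9.trans (mul_le_mul_of_nonneg_left h10 hδ2.le)
      _ ≤ (C1 * (2 * n + 5) + C2 + C3) * (δ ^ (-2 : ℝ) * bnd b J j) := by
            apply mul_le_mul_of_nonneg_right _ (by positivity)
            have : 0 < C1 * (2 * n + 5) := by positivity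
            linarith
      _ = _ := by ring
  · by_cases cC : Y ^ (2 * n) ≤ M
    · have h2 := hC cC
      rw [mul_assoc C3, hYn] at h2
      have h3 : N ≤ V * X * (C3 * ((1 + Real.log Y) ^ (-(1 + b)) +
          (1 + Real.log Y) ^ (-(1 - b)) * (1 + Real.log M) ^ (-b))) := by
        refine h2.trans (le_of_eq ?_)
        ring
      refine fin _ ?_ h3
      have h5 := mu (1 + b) (by linarith)
      have h6 := mu (1 - b) (by linarith)
      have h7 := mw b (by linarith)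
      have h8 : (1 + Real.log Y) ^ (-(1 + b)) ≤ δ ^ (-2 : ℝ) * (1 + (i : ℝ)) ^ (-(1 + b)) :=
        h5.trans (mul_le_mul_of_nonneg_right (hδm (1 + b) (by linarith)) q2)
      have h9 : (1 + Real.log Y) ^ (-(1 - b)) * (1 + Real.log M) ^ (-b) ≤
          (δ ^ (-(1 - b)) * (1 + (i : ℝ)) ^ (-(1 - b))) * (δ ^ (-b) * (1 + (j : ℝ)) ^ (-b)) :=
        mul_le_mul h6 h7 (by positivity) (by positivity)
      have h10 : δ ^ (-(1 - b)) * δ ^ (-b) = δ ^ (-(1 : ℝ)) := by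
        rw [← Real.rpow_add hδ0]
        congr 1
        ring
      have h11 : (1 + Real.log Y) ^ (-(1 - b)) * (1 + Real.log M) ^ (-b) ≤
          δ ^ (-2 : ℝ) * ((1 + (i : ℝ)) ^ (-(1 - b)) * (1 + (j : ℝ)) ^ (-b)) := by
        calc _ ≤ (δ ^ (-(1 - b)) * δ ^ (-b)) *
              ((1 + (i : ℝ)) ^ (-(1 - b)) * (1 + (j : ℝ)) ^ (-b)) := by
              refine h9.trans (le_of_eq ?_)
              ring
          _ ≤ _ := by
              rw [h10]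
              exact mul_le_mul_of_nonneg_right (hδm 1 (by norm_num)) q3
      have h12 : (1 + Real.log Y) ^ (-(1 + b)) +
          (1 + Real.log Y) ^ (-(1 - b)) * (1 + Real.log M) ^ (-b) ≤ δ ^ (-2 : ℝ) * bnd b J j := by
        have : δ ^ (-2 : ℝ) * (1 + (i : ℝ)) ^ (-(1 + b)) +
            δ ^ (-2 : ℝ) * ((1 + (i : ℝ)) ^ (-(1 - b)) * (1 + (j : ℝ)) ^ (-b)) ≤
            δ ^ (-2 : ℝ) * bnd b J j := by
          rw [← mul_add]
          apply mul_le_mul_of_nonneg_left _ hδ2.le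
          rw [hbn]
          linarith
        linarith
      calc C3 * ((1 + Real.log Y) ^ (-(1 + b)) +
          (1 + Real.log Y) ^ (-(1 - b)) * (1 + Real.log M) ^ (-b)) ≤
            C3 * (δ ^ (-2 : ℝ) * bnd b J j) := mul_le_mul_of_nonneg_left h12 hC3.le
        _ ≤ (C1 * (2 * n + 5) + C2 + C3) * (δ ^ (-2 : ℝ) * bnd b J j) := by
              apply mul_le_mul_of_nonneg_right _ (by positivity)
              have : 0 < C1 * (2 * n + 5) := by positivity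
              linarith
        _ = _ := by ring
    · rw [not_le] at cA cC
      rw [mul_assoc, hYn] at hcor
      have l1 : Real.log Y < 4 * Real.log M := by
        have := Real.log_lt_log hY0 cA
        rwa [Real.log_pow] at this
      have l2 : Real.log M < 2 * n * Real.log Y := by
        have := Real.log_lt_log hM0 cC
        rw [Real.log_pow] at this
        push_cast at this
        exact this
      have l3 : δ * ((J : ℝ) + 1) ≤ Real.log Y + Real.log M := by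
        have : (J : ℝ) = i + j := by
          rw [hic]
          ring
        rw [this]
        linarith
      have lM0 : 0 < Real.log M := by
        have : 0 < ((j : ℝ) + 1) * δ := by positivity
        linarith
      have lY0 : 0 ≤ Real.log Y := Real.log_nonneg hY1
      have l4 : δ * ((J : ℝ) + 1) ≤ (2 * n + 5) * (1 + Real.log (min Y M)) := by
        rcases le_total Y M with h | h
        · rw [min_eq_left h]
          nlinarith
        · rw [min_eq_right h]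
          nlinarith
      have hJ : (0 : ℝ) < (J : ℝ) + 1 := by positivity
      have h3 : N ≤ V * X * (C1 * ((2 * n + 5) * (δ ^ (-(1 : ℝ)) * ((J : ℝ) + 1)⁻¹))) := by
        have h4 : N * (δ * ((J : ℝ) + 1)) ≤ C1 * (V * X) * (2 * n + 5) := by
          calc N * (δ * ((J : ℝ) + 1)) ≤ N * ((2 * n + 5) * (1 + Real.log (min Y M))) :=
                mul_le_mul_of_nonneg_left l4 hN
            _ = (N * (1 + Real.log (min Y M))) * (2 * n + 5) := by ring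
            _ ≤ C1 * (V * X) * (2 * n + 5) :=
                mul_le_mul_of_nonneg_right hcor (by positivity)
        rw [Real.rpow_neg hδ0.le, Real.rpow_one, ← mul_inv]
        have h5 : 0 < δ * ((J : ℝ) + 1) := by positivity
        have h6 : V * X * (C1 * ((2 * n + 5) * (δ * ((J : ℝ) + 1))⁻¹)) =
            (C1 * (V * X) * (2 * n + 5)) / (δ * ((J : ℝ) + 1)) := by
          rw [div_eq_mul_inv]
          ring
        rw [h6, le_div_iff₀ h5]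
        exact h4
      refine fin _ ?_ h3
      have h7 : ((J : ℝ) + 1)⁻¹ ≤ bnd b J j := by
        rw [hbn]
        linarith
      have h8 : δ ^ (-(1 : ℝ)) * ((J : ℝ) + 1)⁻¹ ≤ δ ^ (-2 : ℝ) * bnd b J j :=
        mul_le_mul (hδm 1 (by norm_num)) h7 q4 hδ2.le
      calc C1 * ((2 * n + 5) * (δ ^ (-(1 : ℝ)) * ((J : ℝ) + 1)⁻¹)) ≤
            C1 * ((2 * n + 5) * (δ ^ (-2 : ℝ) * bnd b J j)) := by
            apply mul_le_mul_of_nonneg_left _ hC1.le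
            exact mul_le_mul_of_nonneg_left h8 (by positivity)
        _ = (C1 * (2 * n + 5)) * (δ ^ (-2 : ℝ) * bnd b J j) := by ring
        _ ≤ (C1 * (2 * n + 5) + C2 + C3) * (δ ^ (-2 : ℝ) * bnd b J j) := by
            apply mul_le_mul_of_nonneg_right _ (by positivity)
            linarith
        _ = _ := by ring

theorem box2 : S_COR → S_REGB → S_REGC → S_BOX2 := by
  intro hcor hregb hregc L _ _ hodd hn B K C0 hB hC0
  obtain ⟨C1, hC1, h1⟩ := hcor L hn B hB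
  obtain ⟨C2, hC2, h2⟩ := hregb L hn B hB
  obtain ⟨b, C3, hb0, hb1, hC3, h3⟩ := hregc L hodd hn B K hB
  obtain ⟨c0, hc0⟩ : ∃ c0 : ℝ, c0 = max C0 1 := ⟨_, rfl⟩
  have hc01 : 1 ≤ c0 := by
    rw [hc0]
    exact le_max_right _ _
  have hc0C : C0 ≤ c0 := by
    rw [hc0]
    exact le_max_left _ _
  obtain ⟨K0, hK0, hbox⟩ := box_real (Module.finrank ℚ L) hn b C1 C2 C3 c0 hb0 hb1 hC1 hC2 hC3 hc01
  obtain ⟨C4, hC4, hsum⟩ := bnd_sum b hb0 hb1
  refine ⟨K0 * C4, by positivity, ?_⟩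
  intro T hT hnice X hX
  have hX0 : 0 < X := by linarith
  have hn0 : (0 : ℝ) < Module.finrank ℚ L := by
    have : 0 < Module.finrank ℚ L := by omega
    exact_mod_cast this
  obtain ⟨J, hJ⟩ : ∃ J : ℕ, J = Nat.log 2 ⌊X⌋₊ := ⟨_, rfl⟩
  have hfl : 1 ≤ ⌊X⌋₊ := Nat.le_floor (by exact_mod_cast hX)
  have hJX : (2 : ℝ) ^ J ≤ X := by
    have h5 : 2 ^ J ≤ ⌊X⌋₊ := by
      rw [hJ]
      exact Nat.pow_log_le_self 2 (by omega)
    have h6 : ((2 ^ J : ℕ) : ℝ) ≤ (⌊X⌋₊ : ℝ) := by exact_mod_cast h5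
    have h7 := Nat.floor_le hX0.le
    push_cast at h6
    linarith
  -- the boxes
  set Yj : ℕ → ℝ := fun j => c0 * (X / 2 ^ j) ^ ((1 : ℝ) / Module.finrank ℚ L) with hYj
  set Bx : ℕ → Set (𝓞 L × ℤ) := fun j =>
    {p ∈ T | 1 ≤ p.2 ∧ (p.2 : ℝ) ≤ (2 : ℝ) ^ (j + 1) ∧ ∀ σ : L →+* ℂ, ‖σ (p.1 : L)‖ ≤ Yj j} with hBx
  have hY1 : ∀ j ≤ J, 1 ≤ Yj j := by
    intro j hj
    have h2j : (0 : ℝ) < 2 ^ j := by positivity
    have hXj : (1 : ℝ) ≤ X / 2 ^ j := by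
      rw [one_le_div h2j]
      exact (pow_le_pow_right₀ (by norm_num) hj).trans hJX
    have hXr : (1 : ℝ) ≤ (X / 2 ^ j) ^ ((1 : ℝ) / Module.finrank ℚ L) :=
      Real.one_le_rpow hXj (by positivity)
    simp only [hYj]
    nlinarith
  have hbig : ∀ j ≤ J, {p ∈ T | (∀ σ : L →+* ℂ, ‖σ (p.1 : L)‖ ≤ Yj j) ∧
      |(p.2 : ℝ)| ≤ (2 : ℝ) ^ (j + 1)}.Finite ∧
      (({p ∈ T | (∀ σ : L →+* ℂ, ‖σ (p.1 : L)‖ ≤ Yj j) ∧
        |(p.2 : ℝ)| ≤ (2 : ℝ) ^ (j + 1)}.ncard : ℕ) : ℝ) *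
      (1 + Real.log (min (Yj j) ((2 : ℝ) ^ (j + 1)))) ≤
        C1 * Yj j ^ Module.finrank ℚ L * (2 : ℝ) ^ (j + 1) := by
    intro j hj
    exact h1 T (Yj j) ((2 : ℝ) ^ (j + 1)) (hY1 j hj) (one_le_pow₀ (by norm_num))
      (fun l hl hlB _ => hT l hl hlB)
  have hsub : ∀ j, Bx j ⊆ {p ∈ T | (∀ σ : L →+* ℂ, ‖σ (p.1 : L)‖ ≤ Yj j) ∧
      |(p.2 : ℝ)| ≤ (2 : ℝ) ^ (j + 1)} := by
    rintro j p ⟨hp, hp1, hp2, hp3⟩
    refine ⟨hp, hp3, ?_⟩
    rw [abs_of_nonneg]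
    · exact hp2
    · have : (1 : ℝ) ≤ p.2 := by exact_mod_cast hp1
      linarith
  have hfin : ∀ j ≤ J, (Bx j).Finite := fun j hj => (hbig j hj).1.subset (hsub j)
  have hcnt : ∀ j ∈ range (J + 1), (((Bx j).ncard : ℕ) : ℝ) ≤ K0 * X * bnd b J j := by
    intro j hj
    have hj' : j ≤ J := by
      have := mem_range.1 hj
      omega
    apply hbox X J j _ (Yj j) ((2 : ℝ) ^ (j + 1)) hJX hj' rfl rfl (Nat.cast_nonneg _)
    · have h4 := (hbig j hj').2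
      have h5 : (((Bx j).ncard : ℕ) : ℝ) ≤
          (({p ∈ T | (∀ σ : L →+* ℂ, ‖σ (p.1 : L)‖ ≤ Yj j) ∧
          |(p.2 : ℝ)| ≤ (2 : ℝ) ^ (j + 1)}.ncard : ℕ) : ℝ) := by
        exact_mod_cast Set.ncard_le_ncard (hsub j) (hbig j hj').1
      have h6 : 0 ≤ 1 + Real.log (min (Yj j) ((2 : ℝ) ^ (j + 1))) := by
        have : 0 ≤ Real.log (min (Yj j) ((2 : ℝ) ^ (j + 1))) :=
          Real.log_nonneg (le_min (hY1 j hj') (one_le_pow₀ (by norm_num)))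
        linarith
      exact (mul_le_mul_of_nonneg_right h5 h6).trans h4
    · intro hA
      exact (h2 T hT (Yj j) ((2 : ℝ) ^ (j + 1)) (one_le_pow₀ (by norm_num)) hA).2
    · intro hC
      exact (h3 T hT hnice (Yj j) ((2 : ℝ) ^ (j + 1)) (hY1 j hj') hC).2
  have hcov : {p ∈ T | 1 ≤ p.2 ∧ (p.2 : ℝ) ≤ X ∧
      ∀ σ : L →+* ℂ, ‖σ (p.1 : L)‖ ≤ C0 * (X / p.2) ^ ((1 : ℝ) / Module.finrank ℚ L)} ⊆
      ⋃ j ∈ range (J + 1), Bx j := by
    rintro p ⟨hp, hp1, hp2, hp3⟩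
    obtain ⟨m, hm⟩ : ∃ m : ℕ, p.2 = m := ⟨p.2.toNat, (Int.toNat_of_nonneg (by omega)).symm⟩
    have hm1 : 1 ≤ m := by
      rw [hm] at hp1
      exact_mod_cast hp1
    have hmX : (m : ℝ) ≤ X := by
      rw [hm] at hp2
      exact_mod_cast hp2
    have hmf : m ≤ ⌊X⌋₊ := Nat.le_floor hmX
    have hj : Nat.log 2 m ≤ J := by
      rw [hJ]
      exact Nat.log_mono_right hmf
    have hlow : (2 : ℝ) ^ (Nat.log 2 m) ≤ m := by
      exact_mod_cast Nat.pow_log_le_self 2 (show m ≠ 0 by omega)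
    have hup : (m : ℝ) ≤ (2 : ℝ) ^ (Nat.log 2 m + 1) := by
      exact_mod_cast (Nat.lt_pow_succ_log_self (by norm_num) m).le
    rw [Set.mem_iUnion₂]
    refine ⟨Nat.log 2 m, mem_range.2 (by omega), hp, hp1, ?_, ?_⟩
    · rw [hm]
      exact_mod_cast hup
    · intro σ
      refine (hp3 σ).trans ?_
      simp only [hYj]
      have hm0 : (0 : ℝ) < m := by
        have : 0 < m := by omega
        exact_mod_cast this
      have h5 : X / (p.2 : ℝ) ≤ X / 2 ^ (Nat.log 2 m) := by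
        rw [hm]
        push_cast
        exact div_le_div_of_nonneg_left hX0.le (by positivity) hlow
      have h6 : 0 ≤ X / (p.2 : ℝ) := by
        rw [hm]
        push_cast
        positivity
      have h7 : (X / (p.2 : ℝ)) ^ ((1 : ℝ) / Module.finrank ℚ L) ≤
          (X / 2 ^ (Nat.log 2 m)) ^ ((1 : ℝ) / Module.finrank ℚ L) :=
        Real.rpow_le_rpow h6 h5 (by positivity)
      exact mul_le_mul hc0C h7 (Real.rpow_nonneg h6 _) (by linarith)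
  have hUfin : (⋃ j ∈ range (J + 1), Bx j).Finite := by
    apply Set.Finite.biUnion (Finset.finite_toSet _)
    intro j hj
    apply hfin
    have := mem_range.1 (Finset.mem_coe.1 hj)
    omega
  refine ⟨hUfin.subset hcov, ?_⟩
  have hc1 : ({p ∈ T | 1 ≤ p.2 ∧ (p.2 : ℝ) ≤ X ∧
      ∀ σ : L →+* ℂ, ‖σ (p.1 : L)‖ ≤ C0 * (X / p.2) ^ ((1 : ℝ) / Module.finrank ℚ L)}).ncard ≤
      ∑ j ∈ range (J + 1), (Bx j).ncard :=
    (Set.ncard_le_ncard hcov hUfin).trans (Finset.set_ncard_biUnion_le _ _)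
  calc (({p ∈ T | 1 ≤ p.2 ∧ (p.2 : ℝ) ≤ X ∧
      ∀ σ : L →+* ℂ, ‖σ (p.1 : L)‖ ≤ C0 * (X / p.2) ^ ((1 : ℝ) / Module.finrank ℚ L)}.ncard : ℕ) : ℝ)
      ≤ ((∑ j ∈ range (J + 1), (Bx j).ncard : ℕ) : ℝ) := by exact_mod_cast hc1
    _ = ∑ j ∈ range (J + 1), (((Bx j).ncard : ℕ) : ℝ) := by push_cast; rfl
    _ ≤ ∑ j ∈ range (J + 1), K0 * X * bnd b J j := sum_le_sum hcnt
    _ = K0 * X * ∑ j ∈ range (J + 1), bnd b J j := by rw [← mul_sum]
    _ ≤ K0 * X * C4 := mul_le_mul_of_nonneg_left (hsum J) (by positivity)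
    _ = K0 * C4 * X := by ring

end Pool.Agent.Q63.EA
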