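import Pool.Agent.Q63.EA.Exc1

/-!
# Project EA (helper161), job EXC: the exceptional set
-/

set_option autoImplicit false

namespace Pool.Agent.Q63.EA

open NumberField IsDedekindDomain Finset
open Pool.Agent.Q161.EA Pool.Agent.Q51.EL
open Pool.Agent.Q161.OD (P1 P2)

theorem exc : S_MOM → S_MER → S_EXC := by
  intro hmom hmer L _ _ B ψ K hB hchr
  classical
  obtain ⟨C0', hC0'⟩ := hmer L
  obtain ⟨b1, Y1, hb1, hY1, hm⟩ := hmom L B ψ K hchr
  obtain ⟨C0, hC0d⟩ : ∃ C0 : ℝ, C0 = max C0' 0 := ⟨_, rfl⟩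
  have hC00 : 0 ≤ C0 := by
    rw [hC0d]
    exact le_max_right _ _
  have hC0 : ∀ Y : ℝ, 3 ≤ Y → |∑ l ∈ pr Y, (N1 L l : ℝ) / l - Real.log (Real.log Y)| ≤ C0 := by
    intro Y hY
    refine (hC0' Y hY).trans ?_
    rw [hC0d]
    exact le_max_left _ _
  obtain ⟨n, hnd⟩ : ∃ n : ℝ, n = (Module.finrank ℚ L : ℝ) := ⟨_, rfl⟩
  have hn1 : 1 ≤ n := by
    rw [hnd]
    exact_mod_cast (Module.finrank_pos : 0 < Module.finrank ℚ L)
  obtain ⟨A, hA⟩ : ∃ A : ℝ, A = 2 * C0 + n := ⟨_, rfl⟩
  have hA1 : 1 ≤ A := by linarith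
  have hA0 : 0 < A := by linarith
  obtain ⟨b, hbd⟩ : ∃ b : ℝ, b = min b1 (min 1 (1 / (8 * A))) := ⟨_, rfl⟩
  have hb0 : 0 < b := by
    rw [hbd]
    exact lt_min hb1 (lt_min one_pos (by positivity))
  have hbb1 : b ≤ b1 := by
    rw [hbd]
    exact min_le_left _ _
  have hb1' : b ≤ 1 := by
    rw [hbd]
    exact (min_le_right _ _).trans (min_le_left _ _)
  have hbA : b ≤ 1 / (8 * A) := by
    rw [hbd]
    exact (min_le_right _ _).trans (min_le_right _ _)
  refine ⟨b, 1 / 8, max 16 (max Y1 (max ((B : ℝ) ^ 2) (max ((32 * n) ^ 2) ((128 ^ 10) ^ 2)))), hb0,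
    le_max_left _ _, ?_⟩
  intro Y ε AA hY hε hAA
  have hY16 : 16 ≤ Y := (le_max_left _ _).trans hY
  have hYY1 : Y1 ≤ Y := (le_max_left _ _).trans ((le_max_right _ _).trans hY)
  have hYB : (B : ℝ) ^ 2 ≤ Y :=
    (le_max_left _ _).trans ((le_max_right _ _).trans ((le_max_right _ _).trans hY))
  have hYn : (32 * n) ^ 2 ≤ Y :=
    (le_max_left _ _).trans ((le_max_right _ _).trans ((le_max_right _ _).trans
      ((le_max_right _ _).trans hY)))
  have hY128 : ((128 : ℝ) ^ 10) ^ 2 ≤ Y :=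
    (le_max_right _ _).trans ((le_max_right _ _).trans ((le_max_right _ _).trans
      ((le_max_right _ _).trans hY)))
  have hY0 : 0 < Y := by linarith
  obtain ⟨z, hzd⟩ : ∃ z : ℝ, z = Real.sqrt Y := ⟨_, rfl⟩
  have hzsq : ∀ x : ℝ, 0 ≤ x → x ^ 2 ≤ Y → x ≤ z := by
    intro x hx h
    rw [hzd]
    exact Real.le_sqrt_of_sq_le h
  have hz4 : 4 ≤ z := hzsq 4 (by norm_num) (by linarith)
  have hz0 : 0 < z := by linarith
  have hzB : (B : ℝ) ≤ z := hzsq B (Nat.cast_nonneg _) hYB
  have hzn : 32 * n ≤ z := hzsq _ (by positivity) hYn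
  have hz128 : (128 : ℝ) ^ 10 ≤ z := hzsq _ (by positivity) hY128
  have hlogz : Real.log Y = 2 * Real.log z := by
    have : Y = z ^ 2 := by
      rw [hzd, Real.sq_sqrt hY0.le]
    rw [this, Real.log_pow]
    push_cast
    ring
  have hlz0 : 0 < Real.log z := Real.log_pos (by linarith)
  have hlY2 : 2 < Real.log Y := by
    have h1 : Real.log 16 ≤ Real.log Y := Real.log_le_log (by norm_num) hY16
    have h2 : Real.log 16 = 4 * Real.log 2 := by
      rw [show (16 : ℝ) = 2 ^ 4 by norm_num, Real.log_pow]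
      norm_num
    have := Real.log_two_gt_d9
    linarith
  have hz1 : 16 * (Real.sqrt Y) ^ (-(1 / 10 : ℝ)) ≤ 1 / 8 := by
    rw [← hzd]
    have h1 : z ^ (-(1 / 10 : ℝ)) ≤ ((128 : ℝ) ^ 10) ^ (-(1 / 10 : ℝ)) :=
      Real.rpow_le_rpow_of_nonpos (by positivity) hz128 (by norm_num)
    have h2 : ((128 : ℝ) ^ 10) ^ (-(1 / 10 : ℝ)) = 1 / 128 := by
      rw [← Real.rpow_natCast, ← Real.rpow_mul (by norm_num)]
      norm_num [Real.rpow_neg_one]
    rw [h2] at h1
    linarith
  have hnz : 4 * (Module.finrank ℚ L : ℝ) / Real.sqrt Y ≤ 1 / 8 := by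
    rw [← hzd, ← hnd, div_le_iff₀ hz0]
    linarith
  -- the intervals
  obtain ⟨P, hP⟩ : ∃ P : ℕ → ℝ, ∀ s, P s = Real.exp (Real.exp (s * A) * Real.log z) :=
    ⟨fun s => Real.exp (Real.exp (s * A) * Real.log z), fun s => rfl⟩
  have hlP : ∀ s, Real.log (P s) = Real.exp (s * A) * Real.log z := fun s => by
    rw [hP, Real.log_exp]
  have hP0 : P 0 = z := by
    rw [hP]
    simp only [Nat.cast_zero, zero_mul, Real.exp_zero, one_mul]
    exact Real.exp_log hz0
  have hmono : Monotone P := by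
    intro s t hst
    rw [hP, hP]
    apply Real.exp_le_exp.2
    apply mul_le_mul_of_nonneg_right _ hlz0.le
    apply Real.exp_le_exp.2
    have : (s : ℝ) ≤ t := by exact_mod_cast hst
    exact mul_le_mul_of_nonneg_right this hA0.le
  have hPz : ∀ s, z ≤ P s := fun s => by
    rw [← hP0]
    exact hmono (Nat.zero_le s)
  have hPpos : ∀ s, 0 < P s := fun s => hz0.trans_le (hPz s)
  have hllP : ∀ s, Real.log (Real.log (P s)) = s * A + Real.log (Real.log z) := fun s => by
    rw [hlP, Real.log_mul (Real.exp_pos _).ne' hlz0.ne', Real.log_exp]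
  have hS : ∀ s, 1 ≤ ∑ l ∈ Gp L B (P s) (P (s + 1)), (1 : ℝ) / l := by
    intro s
    have h1 := low (L := L) B hB (P s) (P (s + 1)) C0 (hPpos s) (hmono (Nat.le_succ s))
      (hzB.trans (hPz s)) (hC0 _ (by linarith [hPz s])) (hC0 _ (by linarith [hPz (s + 1)]))
    rw [hllP, hllP, ← hnd] at h1
    push_cast at h1
    have h2 : n * 1 ≤ n * ∑ l ∈ Gp L B (P s) (P (s + 1)), (1 : ℝ) / l := by
      rw [hA] at h1
      linarith
    exact le_of_mul_le_mul_left h2 (by linarith)
  obtain ⟨Es, hEs⟩ : ∃ Es : ℕ → Finset (𝓞 L), ∀ s, Es s = AA.filter (fun α =>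
      mi (Gp L B (P s) (P (s + 1))) ψ ε α < (∑ l ∈ Gp L B (P s) (P (s + 1)), (1 : ℝ) / l) / 8) :=
    ⟨fun s => AA.filter (fun α =>
      mi (Gp L B (P s) (P (s + 1))) ψ ε α < (∑ l ∈ Gp L B (P s) (P (s + 1)), (1 : ℝ) / l) / 8),
      fun s => rfl⟩
  have hEcard : ∀ s, Real.log (P (s + 1)) ≤ Real.log Y ^ (1 + b1) →
      ((Es s).card : ℝ) * Real.log Y ^ 3 ≤ Y ^ Module.finrank ℚ L := by
    intro s hs
    apply excs B ψ K hchr b1 Y (P s) (P (s + 1)) hY16 _ _ (hmono (Nat.le_succ s)) hs (hS s) hz1 hnz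
      ε hε (Es s)
    · intro α hα
      rw [hEs, mem_filter] at hα
      exact hAA α hα.1
    · intro α hα
      rw [hEs, mem_filter] at hα
      exact hα.2
    · intro R A' P' hR1 hR2 hA' hc hP'
      exact hm Y R A' P' hYY1 hR1 hR2 hA' hc hP'
    · rw [← hzd]
      exact hPz s
  obtain ⟨Idx, hIdx⟩ : ∃ Idx : Finset ℕ, Idx = (range ⌊Real.log Y⌋₊).filter
    (fun s => Real.log (P (s + 1)) ≤ Real.log Y ^ (1 + b1)) := ⟨_, rfl⟩
  refine ⟨Idx.biUnion Es, ?_, ?_, ?_⟩
  · intro α hα
    rw [mem_biUnion] at hα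
    obtain ⟨s, -, hs⟩ := hα
    rw [hEs, mem_filter] at hs
    exact hs.1
  · have h1 : (((Idx.biUnion Es).card : ℕ) : ℝ) ≤ ∑ s ∈ Idx, ((Es s).card : ℝ) := by
      exact_mod_cast Finset.card_biUnion_le
    have h2 : ∑ s ∈ Idx, ((Es s).card : ℝ) * Real.log Y ^ 3 ≤
        Real.log Y * Y ^ Module.finrank ℚ L := by
      calc ∑ s ∈ Idx, ((Es s).card : ℝ) * Real.log Y ^ 3 ≤
            ∑ _s ∈ Idx, Y ^ Module.finrank ℚ L := by
            apply sum_le_sum
            intro s hs
            rw [hIdx, mem_filter] at hs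
            exact hEcard s hs.2
        _ = (Idx.card : ℝ) * Y ^ Module.finrank ℚ L := by rw [sum_const, nsmul_eq_mul]
        _ ≤ Real.log Y * Y ^ Module.finrank ℚ L := by
            apply mul_le_mul_of_nonneg_right _ (by positivity)
            have h3 : Idx.card ≤ ⌊Real.log Y⌋₊ := by
              rw [hIdx]
              exact (Finset.card_filter_le _ _).trans (by rw [card_range])
            calc (Idx.card : ℝ) ≤ (⌊Real.log Y⌋₊ : ℝ) := by exact_mod_cast h3
              _ ≤ Real.log Y := Nat.floor_le (by linarith)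
    rw [← sum_mul] at h2
    have h3 : (((Idx.biUnion Es).card : ℕ) : ℝ) * Real.log Y ^ 3 ≤
        Real.log Y * Y ^ Module.finrank ℚ L :=
      (mul_le_mul_of_nonneg_right h1 (by positivity)).trans h2
    have h4 : Real.log Y * ((((Idx.biUnion Es).card : ℕ) : ℝ) * Real.log Y ^ 2) ≤
        Real.log Y * Y ^ Module.finrank ℚ L := by
      refine le_trans (le_of_eq ?_) h3
      ring
    exact le_of_mul_le_mul_left h4 (by linarith)
  · intro α hα hαE Z hZ1 hZ2
    rw [← hzd] at hZ1
    have hZ0 : 0 < Z := by linarith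
    have hlZ : Real.log z ≤ Real.log Z := Real.log_le_log hz0 hZ1
    have hlZ0 : 0 < Real.log Z := by linarith
    obtain ⟨t, ht⟩ : ∃ t : ℝ, t = Real.log (Real.log Z / Real.log z) := ⟨_, rfl⟩
    have ht0 : 0 ≤ t := by
      rw [ht]
      apply Real.log_nonneg
      rw [one_le_div hlz0]
      exact hlZ
    have htu : Real.log (Real.log Z / Real.log Y) ≤ t := by
      rw [ht]
      apply Real.log_le_log (by positivity)
      apply div_le_div_of_nonneg_left hlZ0.le hlz0
      linarith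
    obtain ⟨k, hk⟩ : ∃ k : ℕ, k = ⌊t / A⌋₊ := ⟨_, rfl⟩
    have hkt : (k : ℝ) ≤ t / A := by
      rw [hk]
      exact Nat.floor_le (by positivity)
    have hkt2 : t / A - 1 ≤ k := by
      rw [hk]
      have := Nat.lt_floor_add_one (t / A)
      linarith
    have hkA : (k : ℝ) * A ≤ t := by
      rwa [le_div_iff₀ hA0] at hkt
    have hPk : ∀ s < k, P (s + 1) ≤ Z := by
      intro s hs
      have h1 : ((s : ℝ) + 1) * A ≤ t := by
        refine le_trans ?_ hkA
        apply mul_le_mul_of_nonneg_right _ hA0.le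
        exact_mod_cast hs
      have h2 : Real.exp (((s : ℝ) + 1) * A) ≤ Real.log Z / Real.log z := by
        rw [← Real.exp_log (show 0 < Real.log Z / Real.log z by positivity), ← ht]
        exact Real.exp_le_exp.2 h1
      rw [le_div_iff₀ hlz0] at h2
      rw [hP, ← Real.exp_log hZ0]
      apply Real.exp_le_exp.2
      push_cast
      exact h2
    have hZb1 : Real.log Z ≤ Real.log Y ^ (1 + b1) :=
      hZ2.trans (Real.rpow_le_rpow_of_exponent_le (by linarith) (by linarith))
    have hklt : ∀ s < k, s < ⌊Real.log Y⌋₊ := by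
      intro s hs
      refine lt_of_lt_of_le hs (Nat.le_floor ?_)
      have h1 : (k : ℝ) ≤ t := by
        have : (k : ℝ) * 1 ≤ k * A := mul_le_mul_of_nonneg_left hA1 (Nat.cast_nonneg _)
        linarith
      refine h1.trans ?_
      rw [ht]
      have h2 : Real.log Z / Real.log z ≤ 2 * Real.log Y := by
        rw [div_le_iff₀ hlz0]
        have h3 : Real.log Z ≤ Real.log Y ^ (2 : ℝ) :=
          hZ2.trans (Real.rpow_le_rpow_of_exponent_le (by linarith) (by linarith))
        rw [Real.rpow_two] at h3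
        rw [show 2 * Real.log Y * Real.log z = Real.log Y * (2 * Real.log z) by ring, ← hlogz]
        linarith [sq (Real.log Y)]
      have h4 : 2 * Real.log Y ≤ Y := by
        have h5 : Real.log z ≤ z - 1 := Real.log_le_sub_one_of_pos hz0
        have h6 : z ^ 2 = Y := by
          rw [hzd, Real.sq_sqrt hY0.le]
        rw [hlogz]
        nlinarith
      calc Real.log (Real.log Z / Real.log z) ≤ Real.log (2 * Real.log Y) :=
            Real.log_le_log (by positivity) h2
        _ ≤ Real.log Y := Real.log_le_log (by linarith) h4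
    have hmi : ∀ s ∈ range k, 1 / 8 ≤ mi (Gp L B (P s) (P (s + 1))) ψ ε α := by
      intro s hs
      have hs := mem_range.1 hs
      by_contra h
      rw [not_le] at h
      apply hαE
      rw [mem_biUnion]
      refine ⟨s, ?_, ?_⟩
      · rw [hIdx, mem_filter, mem_range]
        exact ⟨hklt s hs, (Real.log_le_log (hPpos _) (hPk s hs)).trans hZb1⟩
      · rw [hEs, mem_filter]
        refine ⟨hα, ?_⟩
        have := hS s
        linarith
    have hdisj : (↑(range k) : Set ℕ).PairwiseDisjoint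
        (fun s => (Gp L B (P s) (P (s + 1))).filter (fun l : ℕ => ψ l α = - ε l)) := by
      have key : ∀ s t : ℕ, s < t → Disjoint
          ((Gp L B (P s) (P (s + 1))).filter (fun l : ℕ => ψ l α = - ε l))
          ((Gp L B (P t) (P (t + 1))).filter (fun l : ℕ => ψ l α = - ε l)) := by
        intro s t hst
        rw [Finset.disjoint_left]
        intro l hl hl2
        rw [mem_filter, mem_Gp (hPpos _).le] at hl hl2
        have h1 : P (s + 1) ≤ P t := hmono hst
        linarith [hl.1.2.1, hl2.1.2.2.1]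
      intro s _ t _ hst
      rcases lt_or_gt_of_ne hst with h | h
      · exact key s t h
      · exact (key t s h).symm
    have hsub : (range k).biUnion
        (fun s => (Gp L B (P s) (P (s + 1))).filter (fun l : ℕ => ψ l α = - ε l)) ⊆
        (pr Z).filter (fun l : ℕ => Real.sqrt Y < (l : ℝ) ∧ ¬ l ∣ B ∧ 1 ≤ N1 L l ∧
            ψ l α = - ε l) := by
      intro l hl
      rw [mem_biUnion] at hl
      obtain ⟨s, hs, hl⟩ := hl
      have hs := mem_range.1 hs
      rw [mem_filter, mem_Gp (hPpos _).le] at hl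
      rw [mem_filter, mem_pr hZ0.le, ← hzd]
      exact ⟨⟨hl.1.1, hl.1.2.1.trans (hPk s hs)⟩, lt_of_le_of_lt (hPz s) hl.1.2.2.1,
        hl.1.2.2.2.1, hl.1.2.2.2.2, hl.2⟩
    have hfin : (k : ℝ) * (1 / 8) ≤
        ∑ l ∈ (pr Z).filter (fun l : ℕ => Real.sqrt Y < (l : ℝ) ∧ ¬ l ∣ B ∧ 1 ≤ N1 L l ∧
            ψ l α = - ε l), (1 : ℝ) / l := by
      calc (k : ℝ) * (1 / 8) = ∑ _s ∈ range k, (1 / 8 : ℝ) := by
            rw [sum_const, card_range, nsmul_eq_mul]
        _ ≤ ∑ s ∈ range k, mi (Gp L B (P s) (P (s + 1))) ψ ε α := sum_le_sum hmi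
        _ = ∑ s ∈ range k, ∑ l ∈ (Gp L B (P s) (P (s + 1))).filter
              (fun l : ℕ => ψ l α = - ε l), (1 : ℝ) / l := by
            apply sum_congr rfl
            intro s _
            unfold mi
            congr!
        _ = ∑ l ∈ (range k).biUnion
              (fun s => (Gp L B (P s) (P (s + 1))).filter (fun l : ℕ => ψ l α = - ε l)),
              (1 : ℝ) / l := (Finset.sum_biUnion hdisj).symm
        _ ≤ _ := Finset.sum_le_sum_of_subset_of_nonneg hsub (fun l _ _ => by positivity)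
    have hA3 : b * Real.log (Real.log Z / Real.log Y) - 1 / 8 ≤ (k : ℝ) * (1 / 8) := by
      have h1 : b * Real.log (Real.log Z / Real.log Y) ≤ b * t :=
        mul_le_mul_of_nonneg_left htu hb0.le
      have h2 : b * t ≤ 1 / (8 * A) * t := mul_le_mul_of_nonneg_right hbA ht0
      have h3 : 1 / (8 * A) * t = t / A * (1 / 8) := by
        field_simp
      linarith
    refine (hA3.trans hfin).trans (le_of_eq ?_)
    congr!

end Pool.Agent.Q63.EA
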