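import Pool.Agent.Q63.EA.Exc1

/-!
# Project EA (helper161), job REGC: the boxes with small first coordinate
-/

set_option autoImplicit false

namespace Pool.Agent.Q63.EA

open NumberField IsDedekindDomain Finset
open Pool.Agent.Q161.EA Pool.Agent.Q51.EL
open Pool.Agent.Q161.OD (P1 P2)

/-- the real variable part -/
theorem regc_real (b b1 C1 C2 C3 : ℝ) (hb1 : 0 < b1) (hb0 : 0 < b) (hb : b ≤ 1 / 2) (hbb1 : b ≤ b1)
    (hbb2 : b ≤ b1 * b1) (hC2 : 0 < C2) (hC3 : 0 < C3) (u w z V M N EN Q : ℝ) (hu : 1 ≤ u)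
    (huw : 2 * u ≤ w) (hz : z = min (w / 4) (u ^ (1 + b1))) (hV : 0 < V) (hM : 0 < M)
    (hQ : Q * (1 + u) ≤ C2 * V) (hEN : EN * u ^ 2 ≤ V)
    (hN : N ≤ EN * M + C3 * M * (Real.exp C1 * (z / u) ^ (-b1)) * Q) :
    N ≤ (4 + C3 * Real.exp C1 * C2 * (4 ^ b1 * 2 + 2)) * V * M *
      ((1 + u) ^ (-(1 + b)) + (1 + u) ^ (-(1 - b)) * (1 + w) ^ (-b)) := by
  have hu0 : 0 < u := by linarith
  have hw0 : 0 < w := by linarith
  have hw1 : 1 ≤ w := by linarith
  have h1u : 0 < 1 + u := by linarith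
  have h1w : 0 < 1 + w := by linarith
  have h2b : (2 : ℝ) ^ b ≤ 2 := by
    calc (2 : ℝ) ^ b ≤ 2 ^ (1 : ℝ) := Real.rpow_le_rpow_of_exponent_le (by norm_num) (by linarith)
      _ = 2 := Real.rpow_one 2
  have h2b0 : 0 < (2 : ℝ) ^ b := by positivity
  -- the ratio
  have hr : (z / u) ^ (-b1) ≤ 4 ^ b1 * (u / w) ^ b1 + u ^ (-(b1 * b1)) := by
    have p1 : 0 ≤ 4 ^ b1 * (u / w) ^ b1 := by positivity
    have p2 : 0 ≤ u ^ (-(b1 * b1)) := by positivity
    rcases le_total (w / 4) (u ^ (1 + b1)) with h | h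
    · rw [min_eq_left h] at hz
      have e1 : (z / u) ^ (-b1) = 4 ^ b1 * (u / w) ^ b1 := by
        rw [hz, Real.rpow_neg (by positivity), ← Real.inv_rpow (by positivity),
          ← Real.mul_rpow (by norm_num) (by positivity)]
        congr 1
        field_simp
      linarith
    · rw [min_eq_right h] at hz
      have e1 : (z / u) ^ (-b1) = u ^ (-(b1 * b1)) := by
        rw [hz, Real.rpow_add hu0, Real.rpow_one, mul_div_assoc, mul_comm, div_mul_cancel₀ _ hu0.ne',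
          ← Real.rpow_mul hu0.le]
        congr 1
        ring
      linarith
  have hinv : (1 + u) ^ (-(1 : ℝ)) = (1 + u)⁻¹ := Real.rpow_neg_one _
  -- term one
  have t1 : 1 / u ^ 2 ≤ 4 * (1 + u) ^ (-(1 + b)) := by
    have h1 : (1 + u) ^ (-(2 : ℝ)) ≤ (1 + u) ^ (-(1 + b)) :=
      Real.rpow_le_rpow_of_exponent_le (by linarith) (by linarith)
    have h2 : (1 + u) ^ (-(2 : ℝ)) = 1 / (1 + u) ^ 2 := by
      rw [Real.rpow_neg h1u.le, Real.rpow_two, one_div]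
    have h3 : 1 / u ^ 2 ≤ 4 * (1 / (1 + u) ^ 2) := by
      rw [mul_one_div, div_le_div_iff₀ (by positivity) (by positivity)]
      nlinarith
    rw [h2] at h1
    linarith
  -- term two
  have t2 : (1 + u)⁻¹ * (u / w) ^ b1 ≤ 2 * ((1 + u) ^ (-(1 - b)) * (1 + w) ^ (-b)) := by
    have hratio : u / w ≤ 1 := by
      rw [div_le_one hw0]
      linarith
    have h1 : (u / w) ^ b1 ≤ (u / w) ^ b :=
      Real.rpow_le_rpow_of_exponent_ge (by positivity) hratio hbb1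
    have h2 : (u / w) ^ b = u ^ b * w ^ (-b) := by
      rw [Real.div_rpow hu0.le hw0.le, Real.rpow_neg hw0.le, div_eq_mul_inv]
    have h3 : u ^ b ≤ (1 + u) ^ b := Real.rpow_le_rpow hu0.le (by linarith) hb0.le
    have h4 : w ^ (-b) ≤ 2 * (1 + w) ^ (-b) := by
      have h5 : w ^ (-b) ≤ ((1 + w) / 2) ^ (-b) :=
        Real.rpow_le_rpow_of_nonpos (by positivity) (by linarith) (by linarith)
      have h6 : ((1 + w) / 2) ^ (-b) = 2 ^ b * (1 + w) ^ (-b) := by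
        rw [Real.div_rpow h1w.le (by norm_num), Real.rpow_neg (by norm_num : (0 : ℝ) ≤ 2),
          div_inv_eq_mul, mul_comm]
      rw [h6] at h5
      refine h5.trans (mul_le_mul_of_nonneg_right h2b (by positivity))
    calc (1 + u)⁻¹ * (u / w) ^ b1 ≤ (1 + u)⁻¹ * (u ^ b * w ^ (-b)) := by
          rw [← h2]
          exact mul_le_mul_of_nonneg_left h1 (by positivity)
      _ ≤ (1 + u)⁻¹ * ((1 + u) ^ b * (2 * (1 + w) ^ (-b))) := by
          apply mul_le_mul_of_nonneg_left _ (by positivity)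
          exact mul_le_mul h3 h4 (by positivity) (by positivity)
      _ = 2 * (((1 + u) ^ (-(1 : ℝ)) * (1 + u) ^ b) * (1 + w) ^ (-b)) := by
          rw [hinv]
          ring
      _ = 2 * ((1 + u) ^ (-(1 - b)) * (1 + w) ^ (-b)) := by
          rw [← Real.rpow_add h1u]
          congr 3
          ring
  -- term three
  have t3 : (1 + u)⁻¹ * u ^ (-(b1 * b1)) ≤ 2 * (1 + u) ^ (-(1 + b)) := by
    have h1 : u ^ (-(b1 * b1)) ≤ u ^ (-b) :=
      Real.rpow_le_rpow_of_exponent_le hu (by linarith)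
    have h4 : u ^ (-b) ≤ 2 * (1 + u) ^ (-b) := by
      have h5 : u ^ (-b) ≤ ((1 + u) / 2) ^ (-b) :=
        Real.rpow_le_rpow_of_nonpos (by positivity) (by linarith) (by linarith)
      have h6 : ((1 + u) / 2) ^ (-b) = 2 ^ b * (1 + u) ^ (-b) := by
        rw [Real.div_rpow h1u.le (by norm_num), Real.rpow_neg (by norm_num : (0 : ℝ) ≤ 2),
          div_inv_eq_mul, mul_comm]
      rw [h6] at h5
      refine h5.trans (mul_le_mul_of_nonneg_right h2b (by positivity))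
    calc (1 + u)⁻¹ * u ^ (-(b1 * b1)) ≤ (1 + u)⁻¹ * (2 * (1 + u) ^ (-b)) :=
          mul_le_mul_of_nonneg_left (h1.trans h4) (by positivity)
      _ = 2 * ((1 + u) ^ (-(1 : ℝ)) * (1 + u) ^ (-b)) := by
          rw [hinv]
          ring
      _ = 2 * (1 + u) ^ (-(1 + b)) := by
          rw [← Real.rpow_add h1u]
          congr 2
          ring
  obtain ⟨F1, hF1⟩ : ∃ F1 : ℝ, F1 = (1 + u) ^ (-(1 + b)) := ⟨_, rfl⟩
  obtain ⟨F2, hF2⟩ : ∃ F2 : ℝ, F2 = (1 + u) ^ (-(1 - b)) * (1 + w) ^ (-b) := ⟨_, rfl⟩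
  have hF10 : 0 ≤ F1 := by
    rw [hF1]
    positivity
  have hF20 : 0 ≤ F2 := by
    rw [hF2]
    positivity
  rw [← hF1] at t1 t3 ⊢
  rw [← hF2] at t2 ⊢
  have hQ2 : Q ≤ C2 * V * (1 + u)⁻¹ := by
    rw [← div_eq_mul_inv, le_div_iff₀ h1u]
    exact hQ
  have hEN2 : EN ≤ V * (4 * F1) := by
    have h1 : EN ≤ V * (1 / u ^ 2) := by
      rw [mul_one_div, le_div_iff₀ (by positivity)]
      exact hEN
    exact h1.trans (mul_le_mul_of_nonneg_left t1 hV.le)
  have h4b : 0 < (4 : ℝ) ^ b1 := by positivity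
  have hmain : (1 + u)⁻¹ * (z / u) ^ (-b1) ≤ (4 ^ b1 * 2 + 2) * (F1 + F2) := by
    calc (1 + u)⁻¹ * (z / u) ^ (-b1) ≤ (1 + u)⁻¹ * (4 ^ b1 * (u / w) ^ b1 + u ^ (-(b1 * b1))) :=
          mul_le_mul_of_nonneg_left hr (by positivity)
      _ = 4 ^ b1 * ((1 + u)⁻¹ * (u / w) ^ b1) + (1 + u)⁻¹ * u ^ (-(b1 * b1)) := by ring
      _ ≤ 4 ^ b1 * (2 * F2) + 2 * F1 := add_le_add (mul_le_mul_of_nonneg_left t2 h4b.le) t3
      _ ≤ (4 ^ b1 * 2 + 2) * (F1 + F2) := by nlinarith [mul_nonneg h4b.le hF10, mul_nonneg h4b.le hF20]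
  have hzu : 0 ≤ (z / u) ^ (-b1) := by
    apply Real.rpow_nonneg
    apply div_nonneg _ hu0.le
    rw [hz]
    exact le_min (by positivity) (by positivity)
  have hK : 0 ≤ C3 * M * (Real.exp C1 * (z / u) ^ (-b1)) := by positivity
  calc N ≤ EN * M + C3 * M * (Real.exp C1 * (z / u) ^ (-b1)) * Q := hN
    _ ≤ V * (4 * F1) * M + C3 * M * (Real.exp C1 * (z / u) ^ (-b1)) * (C2 * V * (1 + u)⁻¹) :=
        add_le_add (mul_le_mul_of_nonneg_right hEN2 hM.le) (mul_le_mul_of_nonneg_left hQ2 hK)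
    _ = 4 * F1 * V * M + C3 * Real.exp C1 * C2 * V * M * ((1 + u)⁻¹ * (z / u) ^ (-b1)) := by ring
    _ ≤ 4 * (F1 + F2) * V * M +
        C3 * Real.exp C1 * C2 * V * M * ((4 ^ b1 * 2 + 2) * (F1 + F2)) := by
        apply add_le_add
        · apply mul_le_mul_of_nonneg_right _ hM.le
          apply mul_le_mul_of_nonneg_right _ hV.le
          linarith
        · exact mul_le_mul_of_nonneg_left hmain (by positivity)
    _ = _ := by ring

variable {L : Type} [Field L] [NumberField L]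

/-- the signs -/
theorem signs (B' : ℕ) (ψ : ℕ → 𝓞 L → ℝ) (hchr : Chr L B' ψ) (T : Set (𝓞 L × ℤ))
    (hT : ∀ l : ℕ, l.Prime → ¬ l ∣ B' → P1 l T ∧ P2 l T) :
    ∃ ε : ℕ → ℝ, (∀ l, ε l = 1 ∨ ε l = -1) ∧ ∀ l : ℕ, l.Prime → ¬ l ∣ B' → 1 ≤ N1 L l →
      ∀ p ∈ T, (l : ℤ) ∣ p.2 → ψ l p.1 = ε l := by
  classical
  have key : ∀ l : ℕ, ∃ e : ℝ, (e = 1 ∨ e = -1) ∧ (l.Prime → ¬ l ∣ B' → 1 ≤ N1 L l →
      ∀ p ∈ T, (l : ℤ) ∣ p.2 → ψ l p.1 = e) := by
    intro l
    by_cases h : l.Prime ∧ ¬ l ∣ B' ∧ 1 ≤ N1 L l ∧ ∃ p ∈ T, (l : ℤ) ∣ p.2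
    · obtain ⟨hl, hlB, hN, p0, hp0, hd0⟩ := h
      have hU : ∀ p ∈ T, (l : ℤ) ∣ p.2 → Un l p.1 := by
        intro p hp hd
        rcases (hT l hl hlB).1 p hp with h1 | h1
        · exact absurd hd h1.1
        · exact h1.2
      refine ⟨ψ l p0.1, hchr.unit l p0.1 hl hlB hN (hU p0 hp0 hd0), fun _ _ _ p hp hd => ?_⟩
      obtain ⟨c, hc, hv⟩ := (hT l hl hlB).2.2 p hp p0 hp0 hd hd0
      exact hchr.coset l p.1 p0.1 c hl hlB hN hc (hU p hp hd) (hU p0 hp0 hd0) hv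
    · refine ⟨1, Or.inl rfl, fun hl hlB hN p hp hd => ?_⟩
      exact absurd ⟨hl, hlB, hN, p, hp, hd⟩ h
  choose ε h1 h2 using key
  exact ⟨ε, h1, h2⟩

theorem regc : S_PSI → S_EXC → S_FSA → S_MSV → S_SAT → S_COR → S_REGC := by
  intro hpsi hexc hfsa hmsv _ hcor L _ _ hodd hn B K hB
  classical
  obtain ⟨B1, ψ, hB1, hchr1⟩ := hpsi L hodd hn
  obtain ⟨B', hB'⟩ : ∃ B' : ℕ, B' = B * B1 := ⟨_, rfl⟩
  have hB'0 : B' ≠ 0 := by
    rw [hB']
    exact mul_ne_zero hB hB1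
  have hd1 : ∀ l : ℕ, ¬ l ∣ B' → ¬ l ∣ B1 := fun l h h1 => h (by
    rw [hB']
    exact h1.mul_left B)
  have hd0 : ∀ l : ℕ, ¬ l ∣ B' → ¬ l ∣ B := fun l h h1 => h (by
    rw [hB']
    exact h1.mul_right B1)
  have hchr : Chr L B' ψ :=
    { mul := hchr1.mul
      abs := hchr1.abs
      red := hchr1.red
      neg := fun l hl h => hchr1.neg l hl (hd1 l h)
      unit := fun l α hl h => hchr1.unit l α hl (hd1 l h)
      coset := fun l α β c hl h => hchr1.coset l α β c hl (hd1 l h) }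
  obtain ⟨b1, C1, Y0, hb1, hY0, hex⟩ := hexc L B' ψ K hB'0 hchr
  obtain ⟨C2, hC2, hfs⟩ := hfsa L hn B hB
  obtain ⟨C3, hC3, hms⟩ := hmsv L B hB
  obtain ⟨C4, hC4, hco⟩ := hcor L hn B hB
  obtain ⟨b, hbd⟩ : ∃ b : ℝ, b = min (min b1 (b1 * b1)) (1 / 2) := ⟨_, rfl⟩
  have hb0 : 0 < b := by
    rw [hbd]
    exact lt_min (lt_min hb1 (by positivity)) (by norm_num)
  have hb2 : b ≤ 1 / 2 := by
    rw [hbd]
    exact min_le_right _ _
  have hbb1 : b ≤ b1 := by
    rw [hbd]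
    exact (min_le_left _ _).trans (min_le_left _ _)
  have hbb2 : b ≤ b1 * b1 := by
    rw [hbd]
    exact (min_le_left _ _).trans (min_le_right _ _)
  have hlY0 : 0 ≤ Real.log Y0 := Real.log_nonneg (by linarith)
  obtain ⟨K1, hK1⟩ : ∃ K1 : ℝ, K1 = 4 + C3 * Real.exp C1 * C2 * (4 ^ b1 * 2 + 2) := ⟨_, rfl⟩
  have hK10 : 0 < K1 := by
    rw [hK1]
    positivity
  refine ⟨b, C4 * (1 + Real.log Y0) ^ (1 + b) + K1, hb0, by linarith, by positivity, ?_⟩
  intro T hT hnice Y M hY hM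
  have hY00 : 0 < Y := by linarith
  have hM1 : 1 ≤ M := (one_le_pow₀ hY).trans hM
  have hM0 : 0 < M := by linarith
  obtain ⟨hf, hc⟩ := hco T Y M hY hM1 (fun l hl hlB _ => hT l hl hlB)
  have hsub : {p ∈ T | 1 ≤ p.2 ∧ (p.2 : ℝ) ≤ M ∧ ∀ σ : L →+* ℂ, ‖σ (p.1 : L)‖ ≤ Y} ⊆
      {p ∈ T | (∀ σ : L →+* ℂ, ‖σ (p.1 : L)‖ ≤ Y) ∧ |(p.2 : ℝ)| ≤ M} := by
    rintro p ⟨hp, hp1, hp2, hp3⟩
    refine ⟨hp, hp3, ?_⟩
    rw [abs_of_nonneg]
    · exact hp2
    · have : (1 : ℝ) ≤ p.2 := by exact_mod_cast hp1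
      linarith
  have hfin := hf.subset hsub
  refine ⟨hfin, ?_⟩
  obtain ⟨u, hu⟩ : ∃ u : ℝ, u = Real.log Y := ⟨_, rfl⟩
  obtain ⟨w, hw⟩ : ∃ w : ℝ, w = Real.log M := ⟨_, rfl⟩
  have hu0 : 0 ≤ u := by
    rw [hu]
    exact Real.log_nonneg hY
  have hw0 : 0 ≤ w := by
    rw [hw]
    exact Real.log_nonneg hM1
  have hVM : 0 < Y ^ Module.finrank ℚ L * M := by positivity
  have hF1 : 0 < (1 + u) ^ (-(1 + b)) := by positivity
  have hF2 : 0 < (1 + u) ^ (-(1 - b)) * (1 + w) ^ (-b) := by positivity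
  rw [← hu, ← hw]
  obtain ⟨N, hN⟩ : ∃ N : ℝ, N = (({p ∈ T | 1 ≤ p.2 ∧ (p.2 : ℝ) ≤ M ∧
    ∀ σ : L →+* ℂ, ‖σ (p.1 : L)‖ ≤ Y}.ncard : ℕ) : ℝ) := ⟨_, rfl⟩
  rw [← hN]
  rcases lt_or_ge Y Y0 with hYY | hYY
  · -- small Y
    have h1 : N ≤ (({p ∈ T | (∀ σ : L →+* ℂ, ‖σ (p.1 : L)‖ ≤ Y) ∧
        |(p.2 : ℝ)| ≤ M}.ncard : ℕ) : ℝ) := by
      rw [hN]
      exact_mod_cast Set.ncard_le_ncard hsub hf
    have h2 : (0 : ℝ) ≤ Real.log (min Y M) := Real.log_nonneg (le_min hY hM1)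
    have h3 : N ≤ C4 * Y ^ Module.finrank ℚ L * M := by
      refine le_trans ?_ hc
      have h4 : (0 : ℝ) ≤ (({p ∈ T | (∀ σ : L →+* ℂ, ‖σ (p.1 : L)‖ ≤ Y) ∧
        |(p.2 : ℝ)| ≤ M}.ncard : ℕ) : ℝ) := Nat.cast_nonneg _
      nlinarith
    have h5 : (1 : ℝ) ≤ (1 + Real.log Y0) ^ (1 + b) * (1 + u) ^ (-(1 + b)) := by
      rw [Real.rpow_neg (by linarith), ← div_eq_mul_inv, one_le_div (by positivity)]
      apply Real.rpow_le_rpow (by linarith) _ (by linarith)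
      rw [hu]
      have := Real.log_le_log hY00 hYY.le
      linarith
    have h6 : C4 * Y ^ Module.finrank ℚ L * M * 1 ≤ C4 * Y ^ Module.finrank ℚ L * M *
        ((1 + Real.log Y0) ^ (1 + b) * (1 + u) ^ (-(1 + b))) :=
      mul_le_mul_of_nonneg_left h5 (by positivity)
    have h7 : 0 ≤ C4 * (1 + Real.log Y0) ^ (1 + b) := by positivity
    calc N ≤ C4 * Y ^ Module.finrank ℚ L * M *
          ((1 + Real.log Y0) ^ (1 + b) * (1 + u) ^ (-(1 + b))) := by linarith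
      _ = (C4 * (1 + Real.log Y0) ^ (1 + b)) * (Y ^ Module.finrank ℚ L * M) *
          (1 + u) ^ (-(1 + b)) := by ring
      _ ≤ (C4 * (1 + Real.log Y0) ^ (1 + b) + K1) * (Y ^ Module.finrank ℚ L * M) *
          ((1 + u) ^ (-(1 + b)) + (1 + u) ^ (-(1 - b)) * (1 + w) ^ (-b)) := by
          apply mul_le_mul _ (by linarith) hF1.le (by positivity)
          apply mul_le_mul_of_nonneg_right _ hVM.le
          linarith
      _ = _ := by ring
  · -- large Y
    have hY16 : 16 ≤ Y := hY0.trans hYY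
    have hu1 : 1 ≤ u := by
      have h1 : Real.log 16 ≤ u := by
        rw [hu]
        exact Real.log_le_log (by norm_num) hY16
      have h2 : Real.log 16 = 4 * Real.log 2 := by
        rw [show (16 : ℝ) = 2 ^ 4 by norm_num, Real.log_pow]
        norm_num
      have := Real.log_two_gt_d9
      linarith
    have huw : 2 * u ≤ w := by
      have h1 : Real.log (Y ^ (2 * Module.finrank ℚ L)) ≤ w := by
        rw [hw]
        exact Real.log_le_log (by positivity) hM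
      rw [Real.log_pow, ← hu] at h1
      push_cast at h1
      have h2 : (1 : ℝ) ≤ Module.finrank ℚ L := by
        have : 1 ≤ Module.finrank ℚ L := by omega
        exact_mod_cast this
      nlinarith
    obtain ⟨z, hz⟩ : ∃ z : ℝ, z = min (w / 4) (u ^ (1 + b1)) := ⟨_, rfl⟩
    have huu : u ≤ u ^ (1 + b1) := by
      calc u = u ^ (1 : ℝ) := (Real.rpow_one u).symm
        _ ≤ u ^ (1 + b1) := Real.rpow_le_rpow_of_exponent_le hu1 (by linarith)
    have hzu : u / 2 ≤ z := by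
      rw [hz]
      exact le_min (by linarith) (by linarith)
    have hz0 : 0 < z := by linarith
    obtain ⟨ε, hε, hεT⟩ := signs B' ψ hchr T (fun l hl h => hT l hl (hd0 l h))
    obtain ⟨Sf, hSf⟩ : ∃ Sf : Finset (𝓞 L × ℤ), Sf = hfin.toFinset := ⟨_, rfl⟩
    have hSfm : ∀ p, p ∈ Sf ↔ (p ∈ T ∧ 1 ≤ p.2 ∧ (p.2 : ℝ) ≤ M ∧
        ∀ σ : L →+* ℂ, ‖σ (p.1 : L)‖ ≤ Y) := by
      intro p
      rw [hSf, Set.Finite.mem_toFinset]
      rfl
    obtain ⟨A, hA⟩ : ∃ A : Finset (𝓞 L), A = Sf.image Prod.fst := ⟨_, rfl⟩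
    have hAm : ∀ α ∈ A, Nice K α ∧ ∀ σ : L →+* ℂ, ‖σ (α : L)‖ ≤ Y := by
      intro α hα
      rw [hA, mem_image] at hα
      obtain ⟨p, hp, rfl⟩ := hα
      rw [hSfm] at hp
      exact ⟨hnice p hp.1, hp.2.2.2⟩
    obtain ⟨E, hEA, hEc, hE⟩ := hex Y ε A hYY hε hAm
    rw [← hu] at hEc
    -- the fibres
    obtain ⟨Sm, hSm⟩ : ∃ Sm : 𝓞 L → Finset ℕ, ∀ α, Sm α =
        (Icc 1 ⌊M⌋₊).filter (fun m : ℕ => (α, (m : ℤ)) ∈ T) :=
      ⟨fun α => (Icc 1 ⌊M⌋₊).filter (fun m : ℕ => (α, (m : ℤ)) ∈ T), fun α => rfl⟩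
    have hNs : N ≤ ∑ α ∈ A, ((Sm α).card : ℝ) := by
      have h1 : Sf.card ≤ ∑ α ∈ A, (Sm α).card := by
        rw [Finset.card_eq_sum_card_image Prod.fst Sf, ← hA]
        apply sum_le_sum
        intro α _
        apply Finset.card_le_card_of_injOn (fun p : 𝓞 L × ℤ => p.2.toNat)
        · intro p hp
          rw [Finset.mem_coe, mem_filter, hSfm] at hp
          rw [Finset.mem_coe, hSm, mem_filter, mem_Icc]
          have h2 : ((p.2.toNat : ℕ) : ℤ) = p.2 := Int.toNat_of_nonneg (by omega)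
          have h1p : 1 ≤ p.2 := hp.1.2.1
          have h1q : 1 ≤ p.2.toNat := by omega
          refine ⟨⟨h1q, Nat.le_floor ?_⟩, ?_⟩
          · have h3 : ((p.2.toNat : ℕ) : ℝ) = (p.2 : ℝ) := by exact_mod_cast congrArg (Int.cast (R := ℝ)) h2
            rw [h3]
            exact hp.1.2.2.1
          · rw [h2, ← hp.2]
            exact hp.1.1
        · intro p hp q hq hpq
          rw [Finset.mem_coe, mem_filter, hSfm] at hp hq
          simp only at hpq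
          have h2 : ((p.2.toNat : ℕ) : ℤ) = p.2 := Int.toNat_of_nonneg (by omega)
          have h3 : ((q.2.toNat : ℕ) : ℤ) = q.2 := Int.toNat_of_nonneg (by omega)
          refine Prod.ext (hp.2.trans hq.2.symm) ?_
          rw [← h2, ← h3, hpq]
      have h2 : N = (Sf.card : ℝ) := by
        rw [hN, hSf, Set.ncard_eq_toFinset_card _ hfin]
      rw [h2]
      exact_mod_cast h1
    -- the primes up to the square root
    obtain ⟨P, hP⟩ : ∃ P : Finset ℕ, P = (range (⌊Y⌋₊ + 1)).filter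
      (fun l : ℕ => l.Prime ∧ ¬ l ∣ B ∧ (l : ℝ) ^ 2 ≤ Y) := ⟨_, rfl⟩
    have hPm : ∀ l, l ∈ P ↔ (l.Prime ∧ ¬ l ∣ B ∧ (l : ℝ) ^ 2 ≤ Y) := by
      intro l
      rw [hP, mem_filter, mem_range]
      refine ⟨fun h => h.2, fun h => ⟨?_, h⟩⟩
      have h1 : (1 : ℝ) ≤ l := by
        have := h.1.one_lt.le
        exact_mod_cast this
      have h2 : (l : ℝ) ≤ Y := by nlinarith [h.2.2]
      have := Nat.le_floor h2
      omega
    obtain ⟨Q, hQ⟩ : ∃ Q : ℝ, Q = ∑ α ∈ A, ∏ l ∈ P, (om T l α : ℝ) / l := ⟨_, rfl⟩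
    have hQ2 : Q * (1 + u) ≤ C2 * Y ^ Module.finrank ℚ L := by
      rw [hQ, hu]
      exact hfs T hT Y P A hY (fun l hl => ⟨((hPm l).1 hl).1, ((hPm l).1 hl).2.1⟩)
        (fun l hl hlB h => (hPm l).2 ⟨hl, hlB, h⟩) (fun α hα => (hAm α hα).2)
    obtain ⟨F, hF⟩ : ∃ F : ℝ, F = Real.exp C1 * (z / u) ^ (-b1) := ⟨_, rfl⟩
    have hF0 : 0 ≤ F := by
      rw [hF]
      positivity
    have hgood : ∀ α ∈ A, α ∉ E → ((Sm α).card : ℝ) ≤
        C3 * M * F * ∏ l ∈ P, (om T l α : ℝ) / l := by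
      intro α hα hαE
      have hZ1 : Real.sqrt Y ≤ Real.exp z := by
        rw [← Real.log_le_log_iff (Real.sqrt_pos.2 hY00) (Real.exp_pos _), Real.log_exp,
          Real.log_sqrt hY00.le, ← hu]
        exact hzu
      have hZ2 : Real.log (Real.exp z) ≤ Real.log Y ^ (1 + b1) := by
        rw [Real.log_exp, ← hu, hz]
        exact min_le_right _ _
      have h1 := hE α hα hαE (Real.exp z) hZ1 hZ2
      rw [Real.log_exp, ← hu] at h1
      obtain ⟨R, hR⟩ : ∃ R : Finset ℕ, R = (pr (Real.exp z)).filter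
        (fun l : ℕ => Real.sqrt Y < (l : ℝ) ∧ ¬ l ∣ B' ∧ 1 ≤ N1 L l ∧ ψ l α = - ε l) := ⟨_, rfl⟩
      have hRm : ∀ l ∈ R, l.Prime ∧ (l : ℝ) ≤ Real.exp z ∧ Real.sqrt Y < (l : ℝ) ∧ ¬ l ∣ B' ∧
          1 ≤ N1 L l ∧ ψ l α = - ε l := by
        intro l hl
        rw [hR, mem_filter, mem_pr (Real.exp_pos _).le] at hl
        exact ⟨hl.1.1, hl.1.2, hl.2⟩
      have h1' : b1 * Real.log (z / u) - C1 ≤ ∑ l ∈ R, (1 : ℝ) / l := by
        refine h1.trans (le_of_eq ?_)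
        rw [hR]
      have hN2 : ((Ideal.absNorm (Ideal.span {α}) : ℕ) : ℝ) ^ 2 ≤ M := by
        have h2 := absNorm_le (hAm α hα).2
        calc ((Ideal.absNorm (Ideal.span {α}) : ℕ) : ℝ) ^ 2 ≤ (Y ^ Module.finrank ℚ L) ^ 2 :=
              pow_le_pow_left₀ (Nat.cast_nonneg _) h2 2
          _ = Y ^ (2 * Module.finrank ℚ L) := by
              rw [← pow_mul, mul_comm]
          _ ≤ M := hM
      have h3 := hms T hT α M P R (Sm α) (hAm α hα).1.ne hM1 hN2 (by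
        rw [Finset.disjoint_left]
        intro l hl hl2
        have h4 := ((hPm l).1 hl).2.2
        have h5 := (hRm l hl2).2.2.1
        have h6 : Y < (l : ℝ) ^ 2 := (Real.sqrt_lt' (by
          have := (hRm l hl2).1.pos
          exact_mod_cast this)).1 h5
        linarith) (by
        intro l hl
        have h4 := (hPm l).1 hl
        refine ⟨h4.1, h4.2.1, ?_⟩
        calc (l : ℝ) ^ 4 = ((l : ℝ) ^ 2) ^ 2 := by ring
          _ ≤ Y ^ 2 := pow_le_pow_left₀ (by positivity) h4.2.2 2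
          _ ≤ Y ^ (2 * Module.finrank ℚ L) := pow_le_pow_right₀ hY (by omega)
          _ ≤ M := hM) (by
        intro l hl
        have h4 := hRm l hl
        refine ⟨h4.1, ?_⟩
        calc (l : ℝ) ^ 4 ≤ Real.exp z ^ 4 := pow_le_pow_left₀ (by positivity) h4.2.1 4
          _ = Real.exp (4 * z) := by
              rw [← Real.exp_nat_mul]
              norm_num
          _ ≤ Real.exp w := by
              apply Real.exp_le_exp.2
              have : z ≤ w / 4 := by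
                rw [hz]
                exact min_le_left _ _
              linarith
          _ = M := by
              rw [hw, Real.exp_log hM0]) (by
        intro m hm
        rw [hSm, mem_filter, mem_Icc] at hm
        refine ⟨hm.1.1, ?_, ?_, ?_⟩
        · exact (Nat.le_floor_iff hM0.le).1 hm.1.2
        · intro l _
          exact Or.inr ⟨(α, (m : ℤ)), hm.2, rfl⟩
        · intro l hl hlm
          have h4 := hRm l hl
          have h5 := hεT l h4.1 h4.2.2.2.1 h4.2.2.2.2.1 (α, (m : ℤ)) hm.2 (by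
            show (l : ℤ) ∣ (m : ℤ)
            exact_mod_cast hlm)
          simp only at h5
          rw [h4.2.2.2.2.2] at h5
          rcases hε l with h6 | h6 <;> rw [h6] at h5 <;> norm_num at h5)
      have h7 : Real.exp (- ∑ l ∈ R, (1 : ℝ) / l) ≤ F := by
        rw [hF, Real.rpow_def_of_pos (by positivity), ← Real.exp_add]
        apply Real.exp_le_exp.2
        linarith
      have h8 : 0 ≤ C3 * M * ∏ l ∈ P, (om T l α : ℝ) / l := by
        have : 0 ≤ ∏ l ∈ P, (om T l α : ℝ) / l := Finset.prod_nonneg (fun l _ => by positivity)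
        positivity
      calc ((Sm α).card : ℝ) ≤ C3 * M * (∏ l ∈ P, (om T l α : ℝ) / l) *
            Real.exp (- ∑ l ∈ R, (1 : ℝ) / l) := h3
        _ ≤ C3 * M * (∏ l ∈ P, (om T l α : ℝ) / l) * F := mul_le_mul_of_nonneg_left h7 h8
        _ = _ := by ring
    have htriv : ∀ α, ((Sm α).card : ℝ) ≤ M := by
      intro α
      have h1 : (Sm α).card ≤ ⌊M⌋₊ := by
        rw [hSm]
        refine (Finset.card_filter_le _ _).trans ?_
        rw [Nat.card_Icc]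
        omega
      calc ((Sm α).card : ℝ) ≤ (⌊M⌋₊ : ℝ) := by exact_mod_cast h1
        _ ≤ M := Nat.floor_le hM0.le
    have hprod : ∀ α, 0 ≤ C3 * M * F * ∏ l ∈ P, (om T l α : ℝ) / l := by
      intro α
      have : 0 ≤ ∏ l ∈ P, (om T l α : ℝ) / l := Finset.prod_nonneg (fun l _ => by positivity)
      positivity
    have hNfin : N ≤ (E.card : ℝ) * M + C3 * M * F * Q := by
      calc N ≤ ∑ α ∈ A, ((Sm α).card : ℝ) := hNs
        _ ≤ ∑ α ∈ A, ((if α ∈ E then M else 0) + C3 * M * F * ∏ l ∈ P, (om T l α : ℝ) / l) := by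
            apply sum_le_sum
            intro α hα
            by_cases h : α ∈ E
            · rw [if_pos h]
              linarith [htriv α, hprod α]
            · rw [if_neg h, zero_add]
              exact hgood α hα h
        _ = (∑ α ∈ A, (if α ∈ E then M else 0)) + C3 * M * F * Q := by
            rw [sum_add_distrib, hQ, ← mul_sum]
        _ = (E.card : ℝ) * M + C3 * M * F * Q := by
            rw [← sum_filter, sum_const, nsmul_eq_mul]
            congr 3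
            rw [Finset.filter_mem_eq_inter, Finset.inter_eq_right.2 hEA]
    have hfinal := regc_real b b1 C1 C2 C3 hb1 hb0 hb2 hbb1 hbb2 hC2 hC3 u w z
      (Y ^ Module.finrank ℚ L) M N E.card Q hu1 huw hz (by positivity) hM0 hQ2 hEc (by
        rw [← hF]
        exact hNfin)
    rw [← hK1] at hfinal
    refine hfinal.trans ?_
    have h9 : 0 ≤ C4 * (1 + Real.log Y0) ^ (1 + b) := by positivity
    have h10 : 0 ≤ Y ^ Module.finrank ℚ L * M *
        ((1 + u) ^ (-(1 + b)) + (1 + u) ^ (-(1 - b)) * (1 + w) ^ (-b)) := by positivity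
    nlinarith [mul_nonneg h9 h10]

end Pool.Agent.Q63.EA
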