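import Pool.Agent.Q63.EA.Exc0

/-!
# Project EA (helper161), job EXC: one interval
-/

set_option autoImplicit false

namespace Pool.Agent.Q63.EA

open NumberField IsDedekindDomain Finset
open Pool.Agent.Q161.EA Pool.Agent.Q51.EL
open Pool.Agent.Q161.OD (P1 P2)

theorem mem_pr {Y : ℝ} (hY : 0 ≤ Y) {l : ℕ} : l ∈ pr Y ↔ l.Prime ∧ (l : ℝ) ≤ Y := by
  unfold pr
  rw [mem_filter, mem_Icc, Nat.le_floor_iff hY]
  exact ⟨fun h => ⟨h.2, h.1.2⟩, fun h => ⟨⟨h.1.one_lt.le, h.2⟩, h.1⟩⟩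

open Classical in
/-- the primes used in an interval -/
noncomputable def Gp (L : Type) [Field L] [NumberField L] (B : ℕ) (p q : ℝ) : Finset ℕ :=
  (pr q).filter (fun l : ℕ => p < (l : ℝ) ∧ ¬ l ∣ B ∧ 1 ≤ N1 L l)

variable {L : Type} [Field L] [NumberField L]

theorem mem_Gp {B : ℕ} {p q : ℝ} (hq : 0 ≤ q) {l : ℕ} :
    l ∈ Gp L B p q ↔ l.Prime ∧ (l : ℝ) ≤ q ∧ p < (l : ℝ) ∧ ¬ l ∣ B ∧ 1 ≤ N1 L l := by
  unfold Gp
  rw [mem_filter, mem_pr hq]
  tauto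

theorem low (B : ℕ) (hB : B ≠ 0) (p q C0 : ℝ) (hp : 0 < p) (hpq : p ≤ q) (hBp : (B : ℝ) ≤ p)
    (h1 : |∑ l ∈ pr p, (N1 L l : ℝ) / l - Real.log (Real.log p)| ≤ C0)
    (h2 : |∑ l ∈ pr q, (N1 L l : ℝ) / l - Real.log (Real.log q)| ≤ C0) :
    Real.log (Real.log q) - Real.log (Real.log p) - 2 * C0 ≤
      Module.finrank ℚ L * ∑ l ∈ Gp L B p q, (1 : ℝ) / l := by
  have hq : 0 < q := by linarith
  have hsub : pr p ⊆ pr q := by
    intro l hl
    rw [mem_pr hp.le] at hl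
    rw [mem_pr hq.le]
    exact ⟨hl.1, hl.2.trans hpq⟩
  have h3 : ∑ l ∈ pr q \ pr p, (N1 L l : ℝ) / l + ∑ l ∈ pr p, (N1 L l : ℝ) / l =
      ∑ l ∈ pr q, (N1 L l : ℝ) / l := Finset.sum_sdiff hsub
  have h4 : ∑ l ∈ Gp L B p q, (N1 L l : ℝ) / l = ∑ l ∈ pr q \ pr p, (N1 L l : ℝ) / l := by
    apply Finset.sum_subset
    · intro l hl
      rw [mem_Gp hq.le] at hl
      rw [mem_sdiff, mem_pr hq.le, mem_pr hp.le]
      exact ⟨⟨hl.1, hl.2.1⟩, fun h => by linarith [h.2, hl.2.2.1]⟩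
    · intro l hl hl2
      rw [mem_sdiff, mem_pr hq.le, mem_pr hp.le] at hl
      rw [mem_Gp hq.le] at hl2
      have h5 : p < (l : ℝ) := by
        by_contra h
        exact hl.2 ⟨hl.1.1, not_lt.1 h⟩
      have h6 : ¬ l ∣ B := by
        intro h
        have h7 := Nat.le_of_dvd (Nat.pos_of_ne_zero hB) h
        have h8 : (l : ℝ) ≤ B := by exact_mod_cast h7
        linarith
      have h7 : N1 L l = 0 := by
        by_contra h
        exact hl2 ⟨hl.1.1, hl.1.2, h5, h6, Nat.one_le_iff_ne_zero.2 h⟩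
      rw [h7]
      simp
  have h5 : ∑ l ∈ Gp L B p q, (N1 L l : ℝ) / l ≤
      Module.finrank ℚ L * ∑ l ∈ Gp L B p q, (1 : ℝ) / l := by
    rw [mul_sum]
    apply sum_le_sum
    intro l hl
    rw [mem_Gp hq.le] at hl
    have h6 : (N1 L l : ℝ) ≤ Module.finrank ℚ L := by
      exact_mod_cast (Pool.Agent.Q91.EL.ram L).2 l hl.1
    rw [mul_one_div]
    gcongr
  rw [abs_le] at h1 h2
  linarith [h1.1, h1.2, h2.1, h2.2]

/-- the sum over the primes of an interval with `ψ = - ε` -/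
noncomputable def mi (G : Finset ℕ) (ψ : ℕ → 𝓞 L → ℝ) (ε : ℕ → ℝ) (α : 𝓞 L) : ℝ :=
  open Classical in ∑ l ∈ G.filter (fun l : ℕ => ψ l α = - ε l), (1 : ℝ) / l

theorem pointwise (B : ℕ) (ψ : ℕ → 𝓞 L → ℝ) (hchr : Chr L B ψ) (Y p q : ℝ) (hY : 16 ≤ Y)
    (hp : Real.sqrt Y ≤ p) (hpq : p ≤ q) (hn : 4 * Module.finrank ℚ L / Real.sqrt Y ≤ 1 / 8)
    (ε : ℕ → ℝ) (hε : ∀ l, ε l = 1 ∨ ε l = -1) (α : 𝓞 L) (hα : α ≠ 0)
    (hY2 : ∀ σ : L →+* ℂ, ‖σ (α : L)‖ ≤ Y) :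
    ∑ l ∈ Gp L B p q, (1 : ℝ) / l - 2 * mi (Gp L B p q) ψ ε α - 1 / 8 ≤
      ∑ l ∈ Gp L B p q, ε l * ψ l α / l := by
  classical
  have hz : 4 ≤ Real.sqrt Y := by
    have : (4 : ℝ) = Real.sqrt 16 := by
      rw [show (16 : ℝ) = 4 ^ 2 by norm_num, Real.sqrt_sq (by norm_num)]
    rw [this]
    exact Real.sqrt_le_sqrt hY
  have hz0 : 0 < Real.sqrt Y := by linarith
  have hq0 : 0 ≤ q := by linarith
  have hfew : (((Gp L B p q).filter (fun l : ℕ => ¬ Un l α)).card) ≤ 2 * Module.finrank ℚ L := by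
    apply few α hα (Real.sqrt Y) (by linarith)
    · intro σ
      rw [Real.sq_sqrt (by linarith)]
      exact hY2 σ
    · intro l hl
      rw [mem_filter, mem_Gp hq0] at hl
      exact ⟨hl.1.1, by linarith [hl.1.2.2.1], hl.2⟩
  have hsm : ∑ l ∈ (Gp L B p q).filter (fun l : ℕ => ¬ Un l α), (1 : ℝ) / l ≤ 1 / 16 := by
    calc ∑ l ∈ (Gp L B p q).filter (fun l : ℕ => ¬ Un l α), (1 : ℝ) / l ≤
          ∑ _l ∈ (Gp L B p q).filter (fun l : ℕ => ¬ Un l α), 1 / Real.sqrt Y := by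
          apply sum_le_sum
          intro l hl
          rw [mem_filter, mem_Gp hq0] at hl
          exact div_le_div_of_nonneg_left (by norm_num) hz0 (by linarith [hl.1.2.2.1])
      _ = ((((Gp L B p q).filter (fun l : ℕ => ¬ Un l α)).card : ℕ) : ℝ) * (1 / Real.sqrt Y) := by
          rw [sum_const, nsmul_eq_mul]
      _ ≤ (2 * Module.finrank ℚ L : ℝ) * (1 / Real.sqrt Y) := by
          apply mul_le_mul_of_nonneg_right _ (by positivity)
          exact_mod_cast hfew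
      _ = (4 * Module.finrank ℚ L / Real.sqrt Y) / 2 := by ring
      _ ≤ 1 / 16 := by linarith
  have hterm : ∀ l ∈ Gp L B p q, (1 : ℝ) / l - 2 * (if ψ l α = - ε l then (1 : ℝ) / l else 0) -
      2 * (if ¬ Un l α then (1 : ℝ) / l else 0) ≤ ε l * ψ l α / l := by
    intro l hl
    rw [mem_Gp hq0] at hl
    have hl0 : (0 : ℝ) < l := by
      have := hl.1.pos
      exact_mod_cast this
    have hl1 : 0 < (1 : ℝ) / l := by positivity
    have hab := hchr.abs l α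
    rw [abs_le] at hab
    have e1 : ε l * ψ l α / l = (ε l * ψ l α) * (1 / l) := by ring
    rw [e1]
    by_cases hU : Un l α
    · rw [if_neg (not_not.2 hU)]
      by_cases h : ψ l α = - ε l
      · rw [if_pos h, h]
        have : ε l * -ε l = -1 := by
          rcases hε l with h1 | h1 <;> rw [h1] <;> norm_num
        rw [this]
        linarith
      · rw [if_neg h]
        have h2 := hchr.unit l α hl.1 hl.2.2.2.1 hl.2.2.2.2 hU
        have : ε l * ψ l α = 1 := by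
          rcases hε l with h1 | h1 <;> rcases h2 with h3 | h3
          · rw [h1, h3]; norm_num
          · exact absurd (by rw [h3, h1]) h
          · exact absurd (by rw [h3, h1]; norm_num) h
          · rw [h1, h3]; norm_num
        rw [this]
        linarith
    · rw [if_pos hU]
      have h3 : -1 ≤ ε l * ψ l α := by
        rcases hε l with h1 | h1 <;> rw [h1] <;> linarith [hab.1, hab.2]
      have h4 : (0 : ℝ) ≤ (if ψ l α = - ε l then (1 : ℝ) / l else 0) := by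
        split_ifs
        · exact hl1.le
        · exact le_rfl
      have h5 : -1 * (1 / (l : ℝ)) ≤ (ε l * ψ l α) * (1 / l) := mul_le_mul_of_nonneg_right h3 hl1.le
      linarith
  have h7 := sum_le_sum hterm
  rw [sum_sub_distrib, sum_sub_distrib, ← mul_sum, ← mul_sum, ← sum_filter, ← sum_filter] at h7
  unfold mi
  linarith

theorem excs (B : ℕ) (ψ : ℕ → 𝓞 L → ℝ) (K : ℝ) (hchr : Chr L B ψ) (b1 Y p q : ℝ) (hY : 16 ≤ Y)
    (hmom : ∀ (R : ℝ) (A : Finset (𝓞 L)) (P : Finset ℕ),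
      Real.sqrt Y ≤ R → Real.log R ≤ Real.log Y ^ (1 + b1) →
      (∀ α ∈ A, Nice K α ∧ ∀ σ : L →+* ℂ, ‖σ (α : L)‖ ≤ Y) →
      Y ^ Module.finrank ℚ L ≤ A.card * Real.log Y ^ 3 →
      (∀ l ∈ P, l.Prime ∧ ¬ l ∣ B ∧ 1 ≤ N1 L l ∧ (l : ℝ) ≤ 2 * R ∧
        (A.card : ℝ) / 4 < |∑ α ∈ A, ψ l α|) →
      (P.card : ℝ) ≤ R ^ (9 / 10 : ℝ))
    (hp : Real.sqrt Y ≤ p) (hpq : p ≤ q) (hq : Real.log q ≤ Real.log Y ^ (1 + b1))
    (hS : 1 ≤ ∑ l ∈ Gp L B p q, (1 : ℝ) / l)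
    (hz1 : 16 * (Real.sqrt Y) ^ (-(1 / 10 : ℝ)) ≤ 1 / 8)
    (hn : 4 * Module.finrank ℚ L / Real.sqrt Y ≤ 1 / 8)
    (ε : ℕ → ℝ) (hε : ∀ l, ε l = 1 ∨ ε l = -1) (E : Finset (𝓞 L))
    (hE : ∀ α ∈ E, Nice K α ∧ ∀ σ : L →+* ℂ, ‖σ (α : L)‖ ≤ Y)
    (hE2 : ∀ α ∈ E, mi (Gp L B p q) ψ ε α < (∑ l ∈ Gp L B p q, (1 : ℝ) / l) / 8) :
    (E.card : ℝ) * Real.log Y ^ 3 ≤ Y ^ Module.finrank ℚ L := by
  classical
  by_contra hcon
  rw [not_le] at hcon
  have hz : 4 ≤ Real.sqrt Y := by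
    have : (4 : ℝ) = Real.sqrt 16 := by
      rw [show (16 : ℝ) = 4 ^ 2 by norm_num, Real.sqrt_sq (by norm_num)]
    rw [this]
    exact Real.sqrt_le_sqrt hY
  have hz0 : 0 < Real.sqrt Y := by linarith
  have hq0 : 0 ≤ q := by linarith
  have hq00 : 0 < q := by linarith
  have hp1 : 1 ≤ p := by linarith
  have hY0 : 0 < Y := by linarith
  have hE0 : 0 < (E.card : ℝ) := by
    by_contra h
    rw [not_lt] at h
    have h1 : (E.card : ℝ) = 0 := le_antisymm h (Nat.cast_nonneg _)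
    rw [h1, zero_mul] at hcon
    have : 0 < Y ^ Module.finrank ℚ L := by positivity
    linarith
  obtain ⟨S, hSd⟩ : ∃ S : ℝ, S = ∑ l ∈ Gp L B p q, (1 : ℝ) / l := ⟨_, rfl⟩
  rw [← hSd] at hS hE2
  obtain ⟨Bad, hBad⟩ : ∃ Bad : Finset ℕ, Bad = (Gp L B p q).filter
    (fun l : ℕ => (E.card : ℝ) / 4 < |∑ α ∈ E, ψ l α|) := ⟨_, rfl⟩
  have hbad : ∑ l ∈ Bad, (1 : ℝ) / l ≤ 1 / 8 := by
    obtain ⟨N, hN⟩ := pow_unbounded_of_one_lt (q / p) (one_lt_two (α := ℝ))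
    have hN2 : q ≤ 2 ^ N * p := by
      rw [div_lt_iff₀ (by linarith)] at hN
      exact hN.le
    have h1 := dyad N p Bad hp1 (by
      intro l hl
      rw [hBad, mem_filter, mem_Gp hq0] at hl
      exact ⟨hl.1.2.2.1, hl.1.2.1.trans hN2⟩) (by
      rintro R hR ⟨l, hl, hlR⟩
      rw [hBad, mem_filter, mem_Gp hq0] at hl
      have hR0 : 0 < R := by linarith
      apply hmom R E _ (hp.trans hR) _ hE hcon.le
      · intro l' hl'
        rw [mem_filter, hBad, mem_filter, mem_Gp hq0] at hl'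
        exact ⟨hl'.1.1.1, hl'.1.1.2.2.2.1, hl'.1.1.2.2.2.2, hl'.2.2, hl'.1.2⟩
      · exact (Real.log_le_log hR0 (by linarith [hl.1.2.1])).trans hq)
    refine h1.trans (le_trans ?_ hz1)
    apply mul_le_mul_of_nonneg_left _ (by norm_num)
    exact Real.rpow_le_rpow_of_nonpos hz0 hp (by norm_num)
  -- upper bound
  have hup : ∑ l ∈ Gp L B p q, |∑ α ∈ E, ψ l α| / l ≤ (E.card : ℝ) / 4 * S + E.card * (1 / 8) := by
    have hterm : ∀ l ∈ Gp L B p q, |∑ α ∈ E, ψ l α| / l ≤ (E.card : ℝ) / 4 * (1 / l) +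
        (E.card : ℝ) * (if (E.card : ℝ) / 4 < |∑ α ∈ E, ψ l α| then (1 : ℝ) / l else 0) := by
      intro l hl
      rw [mem_Gp hq0] at hl
      have hl0 : (0 : ℝ) < l := by
        have := hl.1.pos
        exact_mod_cast this
      have hl1 : 0 < (1 : ℝ) / l := by positivity
      by_cases h : (E.card : ℝ) / 4 < |∑ α ∈ E, ψ l α|
      · rw [if_pos h]
        have h2 : |∑ α ∈ E, ψ l α| ≤ E.card := by
          calc |∑ α ∈ E, ψ l α| ≤ ∑ α ∈ E, |ψ l α| := Finset.abs_sum_le_sum_abs _ _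
            _ ≤ ∑ _α ∈ E, (1 : ℝ) := sum_le_sum (fun α _ => hchr.abs l α)
            _ = E.card := by simp
        have h3 : |∑ α ∈ E, ψ l α| / l ≤ (E.card : ℝ) * (1 / l) := by
          rw [mul_one_div]
          gcongr
        have h4 : 0 ≤ (E.card : ℝ) / 4 * (1 / l) := by positivity
        linarith
      · rw [if_neg h, mul_zero, add_zero, mul_one_div]
        rw [not_lt] at h
        gcongr
    calc ∑ l ∈ Gp L B p q, |∑ α ∈ E, ψ l α| / l ≤ ∑ l ∈ Gp L B p q, ((E.card : ℝ) / 4 * (1 / l) +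
        (E.card : ℝ) * (if (E.card : ℝ) / 4 < |∑ α ∈ E, ψ l α| then (1 : ℝ) / l else 0)) :=
          sum_le_sum hterm
      _ = (E.card : ℝ) / 4 * S + E.card * ∑ l ∈ Bad, (1 : ℝ) / l := by
          rw [sum_add_distrib, ← mul_sum, ← mul_sum, ← sum_filter, hSd, hBad]
      _ ≤ _ := by
          have := mul_le_mul_of_nonneg_left hbad hE0.le
          linarith
  -- lower bound
  have hlow : (E.card : ℝ) * (3 / 4 * S - 1 / 8) ≤ ∑ l ∈ Gp L B p q, |∑ α ∈ E, ψ l α| / l := by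
    have h1 : ∀ l ∈ Gp L B p q, ∑ α ∈ E, ε l * ψ l α / l ≤ |∑ α ∈ E, ψ l α| / l := by
      intro l hl
      have h2 : ∑ α ∈ E, ε l * ψ l α / l = ε l * (∑ α ∈ E, ψ l α) / l := by
        rw [mul_sum, sum_div]
      rw [h2]
      have h3 : ε l * (∑ α ∈ E, ψ l α) ≤ |∑ α ∈ E, ψ l α| := by
        rcases hε l with h | h
        · rw [h, one_mul]
          exact le_abs_self _
        · rw [h, neg_one_mul]
          exact neg_le_abs _
      gcongr
    have h4 : ∀ α ∈ E, 3 / 4 * S - 1 / 8 ≤ ∑ l ∈ Gp L B p q, ε l * ψ l α / l := by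
      intro α hα
      have h5 := pointwise B ψ hchr Y p q hY hp hpq hn ε hε α (hE α hα).1.ne (hE α hα).2
      rw [← hSd] at h5
      have h6 := hE2 α hα
      linarith
    calc (E.card : ℝ) * (3 / 4 * S - 1 / 8) = ∑ _α ∈ E, (3 / 4 * S - 1 / 8) := by
          rw [sum_const, nsmul_eq_mul]
      _ ≤ ∑ α ∈ E, ∑ l ∈ Gp L B p q, ε l * ψ l α / l := sum_le_sum h4
      _ = ∑ l ∈ Gp L B p q, ∑ α ∈ E, ε l * ψ l α / l := sum_comm
      _ ≤ _ := sum_le_sum h1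
  have h8 : (E.card : ℝ) * (3 / 4 * S - 1 / 8) ≤ (E.card : ℝ) * (S / 4 + 1 / 8) := by
    linarith
  have h9 := le_of_mul_le_mul_left h8 hE0
  linarith

end Pool.Agent.Q63.EA
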